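import Pool.Agent.Run7.h780.GR.Fix

/-!
# The action of the automorphisms on the points with a given parameter
-/

set_option autoImplicit false
set_option linter.all false

namespace Pool.Agent.Run7.h780.GR

open WeierstrassCurve Pool.Agent.H901R3.MS Pool.Agent.Run7.h780.ZC
open scoped Classical

lemma kap_ne_zero {k : Type} [Field k] {a b e₁ e₂ e₃ : k} (h : Rt a b e₁ e₂ e₃) :
    kap e₁ e₂ e₃ ≠ 0 := div_ne_zero (sub_ne_zero.2 h.n13) (sub_ne_zero.2 h.n12)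

lemma kap_ne_one {k : Type} [Field k] {a b e₁ e₂ e₃ : k} (h : Rt a b e₁ e₂ e₃) :
    1 - kap e₁ e₂ e₃ ≠ 0 := by
  intro h0
  apply h.n23
  have h1 : kap e₁ e₂ e₃ * (e₁ - e₂) = e₁ - e₃ := div_mul_cancel₀ _ (sub_ne_zero.2 h.n12)
  have h2 : kap e₁ e₂ e₃ = 1 := by linear_combination -h0
  rw [h2] at h1
  linear_combination -h1

/-- the value of the cubic polynomial -/
lemma cubic_xi {k : Type} [Field k] {a b e₁ e₂ e₃ X : k} (h : Rt a b e₁ e₂ e₃)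
    (hX : X ≠ kap e₁ e₂ e₃) : (xi e₁ e₂ e₃ X) ^ 3 + a * xi e₁ e₂ e₃ X + b =
      kap e₁ e₂ e₃ ^ 2 * (1 - kap e₁ e₂ e₃) ^ 2 * (e₁ - e₂) ^ 3 * X * (1 - X) /
        (X - kap e₁ e₂ e₃) ^ 3 := by
  rw [h.fac]
  obtain ⟨κ, hκ⟩ : ∃ κ, κ = kap e₁ e₂ e₃ := ⟨_, rfl⟩
  have k1 : e₃ = e₁ - κ * (e₁ - e₂) := by
    rw [hκ, kap, div_mul_cancel₀ _ (sub_ne_zero.2 h.n12)]; ring
  rw [← hκ] at hX
  have hx : X - κ ≠ 0 := sub_ne_zero.2 hX
  unfold xi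
  rw [← hκ, k1]
  field_simp
  ring

/-- the data of a node -/
noncomputable def dat {ι : AlgebraicClosure ℚ →+* ℂ} {a₀ b₀ : AlgebraicClosure ℚ}
    (N : Node ι a₀ b₀) : Finset (AlgebraicClosure ℚ) :=
  {N.a, N.b, N.e₁, N.e₂, N.e₃, N.e₁ - N.e₂, N.e₃ - N.e₂, kap N.e₁ N.e₂ N.e₃,
    1 - kap N.e₁ N.e₂ N.e₃, a₀, b₀} ∪ N.S

variable {p : ℕ} [Fact p.Prime] {θ : AlgebraicClosure ℚ →+* PadicAlgCl p}
  {g : AlgebraicClosure ℚ ≃ₐ[ℚ] AlgebraicClosure ℚ} {ι : AlgebraicClosure ℚ →+* ℂ}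
  {a₀ b₀ : AlgebraicClosure ℚ}

/-- the unramified case -/
lemma act_unr (hp : 2 < p) (hg : Triv θ g) (N : Node ι a₀ b₀)
    (hfix : ∀ z ∈ dat N, g z = z) (hgood : ∀ z ∈ dat N, ‖θ z‖ ≤ 1 ∧ (z ≠ 0 → ‖θ z‖ = 1))
    {X : AlgebraicClosure ℚ} (gX : g X = X) (nX : ‖θ X‖ = 1) (nX1 : ‖θ (1 - X)‖ = 1)
    (nXk : ‖θ (X - kap N.e₁ N.e₂ N.e₃)‖ = 1) {y : AlgebraicClosure ℚ}
    (h : (CV N.a N.b).toAffine.Nonsingular (xi N.e₁ N.e₂ N.e₃ X) y) :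
    pmap (g : AlgebraicClosure ℚ →+* AlgebraicClosure ℚ) (hfix a₀ (by simp [dat]))
      (hfix b₀ (by simp [dat])) (N.f (Affine.Point.some _ _ h)) =
      N.f (Affine.Point.some _ _ h) := by
  have g1 : g N.e₁ = N.e₁ := hfix _ (by simp [dat])
  have g2 : g N.e₂ = N.e₂ := hfix _ (by simp [dat])
  have g3 : g N.e₃ = N.e₃ := hfix _ (by simp [dat])
  have gk : g (kap N.e₁ N.e₂ N.e₃) = kap N.e₁ N.e₂ N.e₃ := hfix _ (by simp [dat])
  have ga : g N.a = N.a := hfix _ (by simp [dat])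
  have gb : g N.b = N.b := hfix _ (by simp [dat])
  have hXk : X ≠ kap N.e₁ N.e₂ N.e₃ := by
    intro h0
    rw [h0, sub_self, map_zero, norm_zero] at nXk
    exact zero_ne_one nXk
  have gx : g (xi N.e₁ N.e₂ N.e₃ X) = xi N.e₁ N.e₂ N.e₃ X := by
    unfold xi
    rw [map_add, map_div₀, map_mul, map_sub, map_sub, gk, g3, g2, gX]
  have hy2 : y ^ 2 = _ := (eqn_of h).trans (cubic_xi N.rt hXk)
  have gy2 : g (y ^ 2) = y ^ 2 := by
    have hE := eqn_of h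
    unfold Eqn at hE
    rw [hE, map_add, map_add, map_mul, map_pow, gx, ga, gb]
  have n1 : ‖θ (kap N.e₁ N.e₂ N.e₃)‖ = 1 :=
    (hgood _ (by simp [dat])).2 (kap_ne_zero N.rt)
  have n2 : ‖θ (1 - kap N.e₁ N.e₂ N.e₃)‖ = 1 :=
    (hgood _ (by simp [dat])).2 (kap_ne_one N.rt)
  have n3 : ‖θ (N.e₁ - N.e₂)‖ = 1 := (hgood _ (by simp [dat])).2 (sub_ne_zero.2 N.rt.n12)
  have ny : ‖θ y‖ = 1 := by
    have h1 : ‖θ y‖ ^ 2 = 1 := by
      rw [← norm_pow, ← map_pow, hy2, map_div₀, map_mul, map_mul, map_mul, map_mul, map_pow,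
        map_pow, map_pow, map_pow, norm_div, norm_mul, norm_mul, norm_mul, norm_mul, norm_pow,
        norm_pow, norm_pow, norm_pow, n1, n2, n3, nX, nX1, nXk]
      norm_num
    exact (pow_eq_one_iff_of_nonneg (norm_nonneg _) two_ne_zero).1 h1
  have gy : g y = y := fix_sqrt hp hg ny gy2
  symm
  apply pmap_unique
  apply N.good.gal (g : AlgebraicClosure ℚ →+* AlgebraicClosure ℚ)
    (fun z hz => hfix z (by simp [dat, hz]))
  show some (xi N.e₁ N.e₂ N.e₃ X, y) = some (g (xi N.e₁ N.e₂ N.e₃ X), g y)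
  rw [gx, gy]

/-- the ramified case -/
lemma act_ram (hp : 2 < p) (hg : Triv θ g) {π : AlgebraicClosure ℚ}
    (hπ : π ^ 2 = (p : AlgebraicClosure ℚ)) (gπ : g π = -π) (N : Node ι a₀ b₀)
    (hfix : ∀ z ∈ dat N, g z = z) (hgood : ∀ z ∈ dat N, ‖θ z‖ ≤ 1 ∧ (z ≠ 0 → ‖θ z‖ = 1))
    {X : AlgebraicClosure ℚ} (gX : g X = X) (nX : ‖θ X‖ = 1) (nX1 : ‖θ (1 - X)‖ = 1)
    (nXk : ‖θ (X - kap N.e₁ N.e₂ N.e₃)‖ = ((p : ℝ)⁻¹) ^ 3) {y : AlgebraicClosure ℚ}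
    (h : (CV N.a N.b).toAffine.Nonsingular (xi N.e₁ N.e₂ N.e₃ X) y) :
    pmap (g : AlgebraicClosure ℚ →+* AlgebraicClosure ℚ) (hfix a₀ (by simp [dat]))
      (hfix b₀ (by simp [dat])) (N.f (Affine.Point.some _ _ h)) =
      -N.f (Affine.Point.some _ _ h) ∧
      ∀ n : ℕ, n ≠ 0 → n • N.f (Affine.Point.some _ _ h) ≠ 0 := by
  have hp1 : (1 : ℝ) < p := by exact_mod_cast (Fact.out : p.Prime).one_lt
  have hp0 : (p : ℝ) ≠ 0 := by linarith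
  have g1 : g N.e₁ = N.e₁ := hfix _ (by simp [dat])
  have g2 : g N.e₂ = N.e₂ := hfix _ (by simp [dat])
  have g3 : g N.e₃ = N.e₃ := hfix _ (by simp [dat])
  have gk : g (kap N.e₁ N.e₂ N.e₃) = kap N.e₁ N.e₂ N.e₃ := hfix _ (by simp [dat])
  have ga : g N.a = N.a := hfix _ (by simp [dat])
  have gb : g N.b = N.b := hfix _ (by simp [dat])
  have hXk : X ≠ kap N.e₁ N.e₂ N.e₃ := by
    intro h0
    rw [h0, sub_self, map_zero, norm_zero] at nXk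
    have : ((p : ℝ)⁻¹) ^ 3 ≠ 0 := by positivity
    exact this nXk.symm
  have gx : g (xi N.e₁ N.e₂ N.e₃ X) = xi N.e₁ N.e₂ N.e₃ X := by
    unfold xi
    rw [map_add, map_div₀, map_mul, map_sub, map_sub, gk, g3, g2, gX]
  have hy2 : y ^ 2 = _ := (eqn_of h).trans (cubic_xi N.rt hXk)
  have gy2 : g (y ^ 2) = y ^ 2 := by
    have hE := eqn_of h
    unfold Eqn at hE
    rw [hE, map_add, map_add, map_mul, map_pow, gx, ga, gb]
  have n1 : ‖θ (kap N.e₁ N.e₂ N.e₃)‖ = 1 :=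
    (hgood _ (by simp [dat])).2 (kap_ne_zero N.rt)
  have n2 : ‖θ (1 - kap N.e₁ N.e₂ N.e₃)‖ = 1 :=
    (hgood _ (by simp [dat])).2 (kap_ne_one N.rt)
  have n3 : ‖θ (N.e₁ - N.e₂)‖ = 1 := (hgood _ (by simp [dat])).2 (sub_ne_zero.2 N.rt.n12)
  have n4 : ‖θ (N.e₃ - N.e₂)‖ = 1 := (hgood _ (by simp [dat])).2 (sub_ne_zero.2 N.rt.n23.symm)
  have n5 : ‖θ N.e₃‖ ≤ 1 := (hgood _ (by simp [dat])).1
  have nπ : ‖θ π‖ ^ 2 = (p : ℝ)⁻¹ := by
    rw [← norm_pow, ← map_pow, hπ, map_natCast, norm_p]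
  -- the ordinate
  have hη : ‖θ (y * π ^ 9)‖ = 1 := by
    have h1 : ‖θ (y * π ^ 9)‖ ^ 2 = 1 := by
      have h2 : ‖θ y‖ ^ 2 = ((p : ℝ)) ^ 9 := by
        rw [← norm_pow, ← map_pow, hy2, map_div₀, map_mul, map_mul, map_mul, map_mul, map_pow,
          map_pow, map_pow, map_pow, norm_div, norm_mul, norm_mul, norm_mul, norm_mul, norm_pow,
          norm_pow, norm_pow, norm_pow, n1, n2, n3, nX, nX1, nXk]
        field_simp
      have h3 : ‖θ π‖ ^ 18 = ((p : ℝ)⁻¹) ^ 9 := by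
        rw [← nπ, ← pow_mul]
      rw [map_mul, norm_mul, mul_pow, h2, map_pow, norm_pow, ← pow_mul, h3, ← mul_pow,
        mul_inv_cancel₀ hp0, one_pow]
    exact (pow_eq_one_iff_of_nonneg (norm_nonneg _) two_ne_zero).1 h1
  have gη : g (y * π ^ 9) = y * π ^ 9 := by
    apply fix_sqrt hp hg hη
    have e : (y * π ^ 9) ^ 2 = y ^ 2 * (p : AlgebraicClosure ℚ) ^ 9 := by
      rw [← hπ]; ring
    rw [e, map_mul, gy2, map_pow, map_natCast]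
  have hπ0 : π ≠ 0 := by
    rintro rfl
    rw [map_zero, norm_zero] at nπ
    have : (p : ℝ)⁻¹ ≠ 0 := inv_ne_zero hp0
    apply this
    rw [← nπ]; norm_num
  have gy : g y = -y := by
    rw [map_mul, map_pow, gπ] at gη
    apply mul_right_cancel₀ (pow_ne_zero 9 hπ0)
    linear_combination -gη
  -- the abscissa
  have nx : ‖θ (xi N.e₁ N.e₂ N.e₃ X)‖ = (p : ℝ) ^ 3 := by
    have h1 : ‖θ (kap N.e₁ N.e₂ N.e₃ * (N.e₃ - N.e₂) / (X - kap N.e₁ N.e₂ N.e₃))‖ =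
        (p : ℝ) ^ 3 := by
      rw [map_div₀, map_mul, norm_div, norm_mul, n1, n4, nXk]
      field_simp
    unfold xi
    rw [map_add, add_comm, na_left, h1]
    rw [h1]
    exact n5.trans_lt (one_lt_pow₀ hp1 (by norm_num))
  constructor
  · rw [← N.good.neg]
    symm
    apply pmap_unique
    apply N.good.gal (g : AlgebraicClosure ℚ →+* AlgebraicClosure ℚ)
      (fun z hz => hfix z (by simp [dat, hz]))
    rw [neg_some' h (neg_ns h)]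
    show some (xi N.e₁ N.e₂ N.e₃ X, -y) = some (g (xi N.e₁ N.e₂ N.e₃ X), g y)
    rw [gx, gy]
  · intro n hn
    obtain ⟨x', y', h', e1, e2⟩ := N.good.big p hp θ
      (fun z hz => (hgood z (by simp [dat, hz])).1) _ y h (by
        rw [nx]; exact one_lt_pow₀ hp1 (by norm_num))
    rw [e1]
    apply nontors (θ := θ) (hgood _ (by simp [dat])).1 (hgood _ (by simp [dat])).1 h' _ hn
    rw [e2, nx]
    exact pow_lt_pow_right₀ hp1 (by norm_num)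

end Pool.Agent.Run7.h780.GR
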