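import Pool.Agent.Run7.h780.ZC.Mob

/-!
# The relation between points with the same cross-ratio
-/

set_option autoImplicit false
set_option linter.all false

namespace Pool.Agent.Run7.h780.GR

open WeierstrassCurve Pool.Agent.H901R3.MS Pool.Agent.Run7.h780.ZC
open scoped Classical

section
variable {k : Type} [Field k]

/-- the Möbius transformation which maps given roots to given roots -/
lemma mob_of2 {a b c d e₁ e₂ e₃ f₁ f₂ f₃ : k} (h : Rt a b e₁ e₂ e₃) (h' : Rt c d f₁ f₂ f₃)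
    (hΔ : (e₁ - e₂) * (f₁ - f₃) - (e₁ - e₃) * (f₁ - f₂) ≠ 0) :
    ∃ al be γ c0 : k, Mob a b c d al be γ c0 ∧ al * e₁ + be = f₁ * (e₁ - γ) ∧
      al * e₂ + be = f₂ * (e₂ - γ) ∧ al * e₃ + be = f₃ * (e₃ - γ) := by
  set Δ := (e₁ - e₂) * (f₁ - f₃) - (e₁ - e₃) * (f₁ - f₂) with hΔd
  set al := ((e₁ * f₁ - e₂ * f₂) * (f₁ - f₃) - (e₁ * f₁ - e₃ * f₃) * (f₁ - f₂)) / Δ with hal
  set γ := ((e₁ - e₂) * (e₁ * f₁ - e₃ * f₃) - (e₁ - e₃) * (e₁ * f₁ - e₂ * f₂)) / Δ with hγ
  set be := e₁ * f₁ - al * e₁ - γ * f₁ with hbe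
  have halΔ : al * Δ = (e₁ * f₁ - e₂ * f₂) * (f₁ - f₃) - (e₁ * f₁ - e₃ * f₃) * (f₁ - f₂) := by
    rw [hal, div_mul_cancel₀ _ hΔ]
  have hγΔ : γ * Δ = (e₁ - e₂) * (e₁ * f₁ - e₃ * f₃) - (e₁ - e₃) * (e₁ * f₁ - e₂ * f₂) := by
    rw [hγ, div_mul_cancel₀ _ hΔ]
  have g1 : al * e₁ + be = f₁ * (e₁ - γ) := by rw [hbe]; ring
  have g2 : al * e₂ + be = f₂ * (e₂ - γ) := by
    apply mul_right_cancel₀ hΔ
    rw [hbe]
    linear_combination (e₂ - e₁) * halΔ + (f₂ - f₁) * hγΔ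
  have g3 : al * e₃ + be = f₃ * (e₃ - γ) := by
    apply mul_right_cancel₀ hΔ
    rw [hbe]
    linear_combination (e₃ - e₁) * halΔ + (f₃ - f₁) * hγΔ
  set c0 := al ^ 3 + c * al + d with hc0
  have r1 := h'.root1
  have r2 := h'.swap12.root1
  have r3 := h'.swap23.swap12.root1
  have s1 := h.root1
  have s2 := h.swap12.root1
  have s3 := h.swap23.swap12.root1
  have key : ∀ e f : k, e ^ 3 + a * e + b = 0 → f ^ 3 + c * f + d = 0 → al * e + be = f * (e - γ) →
      (3 * al ^ 2 * be + c * (be - 2 * γ * al) - 3 * γ * d) * e ^ 2 +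
      (3 * al * be ^ 2 + c * (al * γ ^ 2 - 2 * γ * be) + 3 * γ ^ 2 * d - c0 * a) * e +
      (be ^ 3 + c * be * γ ^ 2 - d * γ ^ 3 - c0 * b) = 0 := by
    intro e f he hf hg
    have h1 : (al * e + be) ^ 3 + c * (al * e + be) * (e - γ) ^ 2 + d * (e - γ) ^ 3 = 0 := by
      rw [hg]
      linear_combination (e - γ) ^ 3 * hf
    linear_combination h1 - c0 * he + e ^ 3 * hc0
  obtain ⟨q2, q1, q0⟩ := quad_zero h.n12 h.n13 h.n23 (key _ _ s1 r1 g1) (key _ _ s2 r2 g2)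
    (key _ _ s3 r3 g3)
  have nd : al * γ + be ≠ 0 := by
    intro hz
    have t : ∀ e f : k, al * e + be = f * (e - γ) → e = γ ∨ f = al := by
      intro e f hg
      have : (e - γ) * (f - al) = 0 := by linear_combination hz - hg
      rcases mul_eq_zero.1 this with h1 | h1
      · exact Or.inl (sub_eq_zero.1 h1)
      · exact Or.inr (sub_eq_zero.1 h1)
    rcases t _ _ g1 with u1 | u1
    · rcases t _ _ g2 with u2 | u2
      · exact h.n12 (u1.trans u2.symm)
      · rcases t _ _ g3 with u3 | u3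
        · exact h.n13 (u1.trans u3.symm)
        · exact h'.n23 (u2.trans u3.symm)
    · rcases t _ _ g2 with u2 | u2
      · rcases t _ _ g3 with u3 | u3
        · exact h.n23 (u2.trans u3.symm)
        · exact h'.n13 (u1.trans u3.symm)
      · exact h'.n12 (u1.trans u2.symm)
  have hc0n : c0 ≠ 0 := by
    intro hz
    have h1 : (al - f₁) * (al - f₂) * (al - f₃) = 0 := by
      rw [← h'.fac, ← hc0, hz]
    have t : ∀ e f : k, al * e + be = f * (e - γ) → al ≠ f := by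
      intro e f hg hf
      apply nd
      rw [← hf] at hg
      linear_combination hg
    rcases mul_eq_zero.1 h1 with h2 | h2
    · rcases mul_eq_zero.1 h2 with h3 | h3
      · exact t _ _ g1 (sub_eq_zero.1 h3)
      · exact t _ _ g2 (sub_eq_zero.1 h3)
    · exact t _ _ g3 (sub_eq_zero.1 h2)
  exact ⟨al, be, γ, c0, ⟨hc0n, rfl, q2, by linear_combination q1, by linear_combination q0, nd⟩,
    g1, g2, g3⟩

/-- the cross-ratio of the branch points -/
def kap (e₁ e₂ e₃ : k) : k := (e₁ - e₃) / (e₁ - e₂)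

/-- the abscissa of the points with the parameter `X` -/
def xi (e₁ e₂ e₃ X : k) : k := e₃ + kap e₁ e₂ e₃ * (e₃ - e₂) / (X - kap e₁ e₂ e₃)

/-- the Möbius transformation preserves the parameter -/
lemma xi_mob {e₁ e₂ e₃ f₁ f₂ f₃ al be γ X : k} (n : e₁ ≠ e₂) (n' : f₁ ≠ f₂)
    (g1 : al * e₁ + be = f₁ * (e₁ - γ)) (g2 : al * e₂ + be = f₂ * (e₂ - γ))
    (g3 : al * e₃ + be = f₃ * (e₃ - γ)) (hX : X ≠ kap e₁ e₂ e₃) (hX' : X ≠ kap f₁ f₂ f₃) :
    al * xi e₁ e₂ e₃ X + be = xi f₁ f₂ f₃ X * (xi e₁ e₂ e₃ X - γ) := by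
  obtain ⟨κ, hκ⟩ : ∃ κ, κ = kap e₁ e₂ e₃ := ⟨_, rfl⟩
  obtain ⟨κ', hκ'⟩ : ∃ κ', κ' = kap f₁ f₂ f₃ := ⟨_, rfl⟩
  have k1 : e₃ = e₁ - κ * (e₁ - e₂) := by
    rw [hκ, kap, div_mul_cancel₀ _ (sub_ne_zero.2 n)]; ring
  have k2 : f₃ = f₁ - κ' * (f₁ - f₂) := by
    rw [hκ', kap, div_mul_cancel₀ _ (sub_ne_zero.2 n')]; ring
  unfold xi
  rw [← hκ] at hX
  rw [← hκ'] at hX'
  rw [← hκ, ← hκ']
  have hx : X - κ ≠ 0 := sub_ne_zero.2 hX
  have hx' : X - κ' ≠ 0 := sub_ne_zero.2 hX'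
  have key : (al * (e₃ * (X - κ) + κ * (e₃ - e₂)) + be * (X - κ)) * (X - κ') =
      (f₃ * (X - κ') + κ' * (f₃ - f₂)) * ((e₃ * (X - κ) + κ * (e₃ - e₂)) - γ * (X - κ)) := by
    have g3' : al * (e₁ - κ * (e₁ - e₂)) + be = (f₁ - κ' * (f₁ - f₂)) * ((e₁ - κ * (e₁ - e₂)) - γ) := by
      rw [← k1, ← k2]; exact g3
    rw [k1, k2]
    linear_combination (X ^ 2 - X) * g3' + κ * κ' * (1 - X) * g2 + (1 - κ) * (1 - κ') * X * g1
  field_simp
  linear_combination key

end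

section
variable {k : Type} [Field k] [IsAlgClosed k] [CharZero k]

/-- the relation for the graph of an isomorphism -/
theorem scale_rel {a b c d s : k} (hD : Disc a b) (hD' : Disc c d) (hs : s ≠ 0)
    (hc : c = s ^ 4 * a) (hd : d = s ^ 6 * b) (B : Pt a b →+ Pt c d →+ CH a b c d)
    (hB : ∀ P Q, B P Q = QuotientAddGroup.mk (cyc P Q)) {x y : k}
    (hP : (CV a b).toAffine.Nonsingular x y)
    (hQ : (CV c d).toAffine.Nonsingular (s ^ 2 * x) (s ^ 3 * y)) :
    2 • B (Affine.Point.some x y hP) (Affine.Point.some _ _ hQ) = 0 := by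
  obtain ⟨w, w', v, v', S⟩ := exists_St k
  obtain ⟨red, hr⟩ := exists_red S.s0 hD
  obtain ⟨red', hr'⟩ := exists_red S.s1 hD
  obtain ⟨rdd, hq⟩ := exists_red S.s0 hD'
  obtain ⟨rdd', hq'⟩ := exists_red S.s1 hD'
  have cA : ∀ e : k, io k e ∈ v.A := fun e => (S.s0.mem _).2 (S.s0.cst e)
  have cA' : ∀ e : k, io k e ∈ v'.A := fun e => (S.s1.mem _).2 (S.s1.cst e)
  obtain ⟨e1, he1⟩ : ∃ e1 : k, e1 ^ 3 + a * e1 + b = 0 := by
    obtain ⟨z, hz⟩ := IsAlgClosed.exists_root (Polynomial.X ^ 3 + Polynomial.C a * Polynomial.X +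
      Polynomial.C b) (by
        have : (Polynomial.X ^ 3 + Polynomial.C a * Polynomial.X + Polynomial.C b).degree = 3 := by
          compute_degree!
        rw [this]; norm_num)
    exact ⟨z, by simpa using hz⟩
  have hT1 : (CV a b).toAffine.Nonsingular e1 0 := (nonsingular_iff hD).2 (by
    unfold Eqn; rw [he1]; ring)
  have hT2 : (CV c d).toAffine.Nonsingular (s ^ 2 * e1) 0 := (nonsingular_iff hD').2 (by
    unfold Eqn; rw [hc, hd]; linear_combination -s ^ 6 * he1)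
  obtain ⟨X, hXσ, m1, r1, m2, r2⟩ := interp S x e1
  obtain ⟨Y, hns, hYσ⟩ := lift_x hD X hXσ
  have hns2 : (CV (io k c) (io k d)).toAffine.Nonsingular (io k (s ^ 2) * X) (io k (s ^ 3) * Y) := by
    rw [nonsingular_iff (disc_io hD')]
    have hE := eqn_of hns
    unfold Eqn at *
    have j1 := congrArg (io k) hc
    have j2 := congrArg (io k) hd
    simp only [map_mul, map_pow] at j1 j2 ⊢
    rw [j1, j2]
    linear_combination (io k s) ^ 6 * hE
  set P' : Pt (io k a) (io k b) := Affine.Point.some X Y hns with hP'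
  set Q' : Pt (io k c) (io k d) := Affine.Point.some _ _ hns2 with hQ'
  have hσ : ∀ σ : Om k ≃ₐ[RatFunc k] Om k, (gal σ P' = P' ∧ gal σ Q' = Q') ∨
      (gal σ P' = -P' ∧ gal σ Q' = -Q') := by
    intro σ
    have k1 : σ (io k (s ^ 2)) = io k (s ^ 2) := sigma_io σ _
    have k2 : σ (io k (s ^ 3)) = io k (s ^ 3) := sigma_io σ _
    rcases (hYσ σ).1 with h | h
    · left
      constructor
      · rw [hP', gal_some, Affine.Point.some.injEq]
        exact ⟨hXσ σ, h⟩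
      · rw [hQ', gal_some, Affine.Point.some.injEq]
        exact ⟨by rw [map_mul, k1, hXσ], by rw [map_mul, k2, h]⟩
    · right
      constructor
      · rw [hP', gal_some, neg_some' hns (neg_ns hns), Affine.Point.some.injEq]
        exact ⟨hXσ σ, h⟩
      · rw [hQ', gal_some, neg_some' hns2 (neg_ns hns2), Affine.Point.some.injEq]
        exact ⟨by rw [map_mul, k1, hXσ], by rw [map_mul, k2, h, mul_neg]⟩
  have hmem := pair_mem S hr hr' hq hq' P' (-P') Q' (-Q') (fun σ => by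
    rcases hσ σ with ⟨h1, h2⟩ | ⟨h1, h2⟩
    · left
      rw [map_neg, map_neg, h1, h2]
      exact ⟨rfl, rfl, rfl, rfl⟩
    · right
      rw [map_neg, map_neg, h1, h2, neg_neg, neg_neg]
      exact ⟨rfl, rfl, rfl, rfl⟩)
  set P : Pt a b := Affine.Point.some x y hP with hPd
  set Q : Pt c d := Affine.Point.some _ _ hQ with hQd
  have h0 : (red P' = P ∧ rdd Q' = Q) ∨ (red P' = -P ∧ rdd Q' = -Q) := by
    obtain ⟨hYA, hY⟩ := red_of_x hr hns m1 hP r1
    obtain ⟨-, h', e'⟩ := hq.2 _ _ hns2 (v.A.mul_mem (cA _) m1)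
    have u1 : v.r (io k (s ^ 2) * X) = s ^ 2 * x := by rw [v.r_mul (cA _) m1, S.s0.con, r1]
    have u2 : v.r (io k (s ^ 3) * Y) = s ^ 3 * v.r Y := by rw [v.r_mul (cA _) hYA, S.s0.con]
    rcases hY with ⟨h1, h2⟩ | ⟨h1, h2⟩
    · left
      refine ⟨h2, ?_⟩
      rw [hQ', e', hQd, Affine.Point.some.injEq]
      exact ⟨u1, by rw [u2, h1]⟩
    · right
      refine ⟨h2, ?_⟩
      rw [hQ', e', hQd, neg_some' hQ (neg_ns hQ), Affine.Point.some.injEq]
      exact ⟨u1, by rw [u2, h1]; ring⟩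
  set T1 : Pt a b := Affine.Point.some e1 0 hT1 with hT1d
  set T2 : Pt c d := Affine.Point.some _ 0 hT2 with hT2d
  have hT1n : -T1 = T1 := by
    rw [hT1d, neg_some' hT1 (neg_ns hT1), Affine.Point.some.injEq]
    exact ⟨rfl, neg_zero⟩
  have hT2n : -T2 = T2 := by
    rw [hT2d, neg_some' hT2 (neg_ns hT2), Affine.Point.some.injEq]
    exact ⟨rfl, neg_zero⟩
  have h1 : red' P' = T1 ∧ rdd' Q' = T2 := by
    obtain ⟨hYA, hY⟩ := red_of_x hr' hns m2 hT1 r2
    have hY0 : v'.r Y = 0 := by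
      rcases hY with ⟨h1, -⟩ | ⟨h1, -⟩
      · exact h1
      · rw [h1, neg_zero]
    have hP1 : red' P' = T1 := by
      rcases hY with ⟨-, h1⟩ | ⟨-, h1⟩
      · exact h1
      · rw [h1]; exact hT1n
    refine ⟨hP1, ?_⟩
    obtain ⟨-, h', e'⟩ := hq'.2 _ _ hns2 (v'.A.mul_mem (cA' _) m2)
    rw [hQ', e', hT2d, Affine.Point.some.injEq]
    exact ⟨by rw [v'.r_mul (cA' _) m2, S.s1.con, r2],
      by rw [v'.r_mul (cA' _) hYA, S.s1.con, hY0, mul_zero]⟩
  rw [map_neg, map_neg, map_neg, map_neg, h1.1, h1.2, hT1n, hT2n] at hmem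
  have hPQ : Finsupp.single (P, Q) 1 + Finsupp.single (-P, -Q) 1 - Finsupp.single (T1, T2) 1 -
      Finsupp.single (T1, T2) 1 ∈ RatEquivZero a b c d := by
    rcases h0 with ⟨h2, h3⟩ | ⟨h2, h3⟩
    · rw [h2, h3] at hmem
      exact hmem
    · rw [h2, h3, neg_neg, neg_neg] at hmem
      convert hmem using 1
      abel
  have hgen : ∀ (P : Pt a b) (Q : Pt c d), 2 • B P Q =
      (QuotientAddGroup.mk (Finsupp.single (P, Q) 1 + Finsupp.single (-P, -Q) 1 -
        2 • Finsupp.single (0, 0) 1) : CH a b c d) := by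
    intro P Q
    have e1 : 2 • B P Q = B P Q + B (-P) (-Q) := by
      rw [two_nsmul, map_neg, map_neg, AddMonoidHom.neg_apply, neg_neg]
    rw [e1, hB, hB, ← QuotientAddGroup.mk_add, QuotientAddGroup.eq]
    have k1 := bilin1 hD hD' P (-P) 0
    have k2 := bilin2 hD hD' 0 Q (-Q)
    rw [add_neg_cancel] at k1 k2
    have k3 := AddSubgroup.add_mem _ k1 k2
    convert k3 using 1
    unfold cyc
    rw [two_nsmul]
    abel
  have hfin : 2 • B P Q = 2 • B T1 T2 := by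
    rw [hgen, hgen, QuotientAddGroup.eq, hT1n, hT2n]
    have := AddSubgroup.neg_mem _ hPQ
    convert this using 1
    abel
  rw [hfin, two_nsmul]
  have e2 : B T1 T2 + B T1 T2 = B (T1 + T1) T2 := by
    rw [map_add, AddMonoidHom.add_apply]
  rw [e2]
  have e3 : T1 + T1 = 0 := by
    conv_lhs => rw [← hT1n]
    conv_lhs => rw [← hT1n]
    rw [hT1n]
    nth_rewrite 1 [← hT1n]
    rw [neg_add_cancel]
  rw [e3, map_zero, AddMonoidHom.zero_apply]

/-- **points with the same parameter are orthogonal** -/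
theorem rel_all {a b c d e₁ e₂ e₃ f₁ f₂ f₃ X : k} (h : Rt a b e₁ e₂ e₃) (h' : Rt c d f₁ f₂ f₃)
    (hD : Disc a b) (hD' : Disc c d) (B : Pt a b →+ Pt c d →+ CH a b c d)
    (hB : ∀ P Q, B P Q = QuotientAddGroup.mk (cyc P Q)) {x y x' y' : k}
    (hP : (CV a b).toAffine.Nonsingular x y) (hQ : (CV c d).toAffine.Nonsingular x' y')
    (hX : X ≠ kap e₁ e₂ e₃) (hX' : X ≠ kap f₁ f₂ f₃) (hx : x = xi e₁ e₂ e₃ X)
    (hx' : x' = xi f₁ f₂ f₃ X) :
    2 • B (Affine.Point.some x y hP) (Affine.Point.some x' y' hQ) = 0 := by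
  -- the sign of the second point does not matter
  have sgn : ∀ (y'' : k) (hQ' : (CV c d).toAffine.Nonsingular x' y''),
      2 • B (Affine.Point.some x y hP) (Affine.Point.some x' y'' hQ') = 0 →
      2 • B (Affine.Point.some x y hP) (Affine.Point.some x' y' hQ) = 0 := by
    intro y'' hQ' h0
    have h1 : y'' ^ 2 = y' ^ 2 := by
      have k1 := eqn_of hQ
      have k2 := eqn_of hQ'
      unfold Eqn at k1 k2
      rw [k1, k2]
    rcases sq_eq_sq_iff_eq_or_eq_neg.mp h1 with h2 | h2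
    · subst h2
      exact h0
    · subst h2
      have h3 : (Affine.Point.some x' y' hQ : Pt c d) = -Affine.Point.some x' (-y') hQ' := by
        rw [neg_some' hQ' (neg_ns hQ'), Affine.Point.some.injEq]
        exact ⟨rfl, (neg_neg _).symm⟩
      rw [two_nsmul] at h0
      rw [h3, map_neg, two_nsmul, ← neg_add, h0, neg_zero]
  by_cases hΔ : (e₁ - e₂) * (f₁ - f₃) - (e₁ - e₃) * (f₁ - f₂) = 0
  · -- the graph of an isomorphism
    have n12 := sub_ne_zero.2 h.n12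
    have m12 := sub_ne_zero.2 h'.n12
    obtain ⟨ρ, hρ⟩ : ∃ ρ, ρ = (f₁ - f₂) / (e₁ - e₂) := ⟨_, rfl⟩
    have k1 : f₁ - f₂ = ρ * (e₁ - e₂) := by rw [hρ, div_mul_cancel₀ _ n12]
    have k2 : f₁ - f₃ = ρ * (e₁ - e₃) := by
      apply mul_left_cancel₀ n12
      rw [k1] at hΔ
      linear_combination hΔ
    have hρ0 : ρ ≠ 0 := by
      rintro h0
      rw [h0, zero_mul] at k1
      exact m12 k1
    have h3 : (3 : k) ≠ 0 := by norm_num
    have q1 : f₁ = ρ * e₁ := by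
      apply mul_left_cancel₀ h3
      linear_combination k1 + k2 + h'.sum - ρ * h.sum
    have q2 : f₂ = ρ * e₂ := by linear_combination q1 - k1
    have q3 : f₃ = ρ * e₃ := by linear_combination q1 - k2
    obtain ⟨s, hs⟩ := IsAlgClosed.exists_pow_nat_eq ρ (n := 2) (by norm_num)
    have hs0 : s ≠ 0 := by
      rintro rfl
      apply hρ0
      rw [← hs]; ring
    have hc : c = s ^ 4 * a := by
      rw [h'.ha, h.ha, q1, q2, q3, ← hs]; ring
    have hd : d = s ^ 6 * b := by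
      rw [h'.hb, h.hb, q1, q2, q3, ← hs]; ring
    have hκ : kap f₁ f₂ f₃ = kap e₁ e₂ e₃ := by
      unfold kap
      rw [k1, k2, mul_div_mul_left _ _ hρ0]
    have hxx : x' = s ^ 2 * x := by
      rw [hx', hx]
      unfold xi
      rw [hκ, q2, q3, hs]
      ring
    subst hxx
    have hQ' : (CV c d).toAffine.Nonsingular (s ^ 2 * x) (s ^ 3 * y) := by
      rw [nonsingular_iff hD']
      have hE := eqn_of hP
      unfold Eqn at *
      rw [hc, hd]
      linear_combination s ^ 6 * hE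
    exact sgn _ hQ' (scale_rel hD hD' hs0 hc hd B hB hP hQ')
  · obtain ⟨al, be, γ, c0, M, g1, g2, g3⟩ := mob_of2 h h' hΔ
    have hm := xi_mob h.n12 h'.n12 g1 g2 g3 hX hX'
    rw [← hx, ← hx'] at hm
    have hxγ : x ≠ γ := by
      intro h0
      apply M.nd
      rw [h0, sub_self, mul_zero] at hm
      exact hm
    have hx0 : x - γ ≠ 0 := sub_ne_zero.2 hxγ
    have hx2 : x' = (al * x + be) / (x - γ) := by
      rw [hm, mul_div_cancel_right₀ _ hx0]
    obtain ⟨s, hs⟩ := IsAlgClosed.exists_pow_nat_eq (c0 * (x - γ)) (n := 2) (by norm_num)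
    have hQ' : (CV c d).toAffine.Nonsingular ((al * x + be) / (x - γ)) (s * y / (x - γ) ^ 2) := by
      have := M.ns hD' (RingHom.id k) (x := x) (y := y) (s := s) hxγ (by
        simpa only [RingHom.id_apply] using eqn_of hP) hs
      simpa only [RingHom.id_apply] using this
    subst hx2
    exact sgn _ hQ' (curve_rel M hD hD' B hB hP hxγ hs hQ')

end

end Pool.Agent.Run7.h780.GR
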