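import Pool.Agent.Run7.h780.GR.Push
import Pool.Agent.Run7.h780.GR.Rel
import Pool.Agent.Run7.h780.ZC.Nrm

/-!
# Infinitely many curves which are isogenous to a given curve
-/

set_option autoImplicit false
set_option linter.all false

namespace Pool.Agent.Run7.h780.GR

open WeierstrassCurve Pool.Agent.H901R3.MS Pool.Agent.Run7.h780.ZC
open scoped Classical

variable {k : Type} [Field k] [IsAlgClosed k] [CharZero k]

/-- the properties of the maps of points which are used: `S` contains the coefficients -/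
structure Good {a b a₀ b₀ : k} (f : Pt a b → Pt a₀ b₀) (S : Finset k) : Prop where
  mor : Mor f
  zero : f 0 = 0
  neg : ∀ P, f (-P) = -f P
  gal : ∀ g : k →+* k, (∀ z ∈ S, g z = z) → ∀ P Q, coords Q = (coords P).map (Prod.map g g) →
    coords (f Q) = (coords (f P)).map (Prod.map g g)
  big : ∀ (p : ℕ) [Fact p.Prime], 2 < p → ∀ θ : k →+* PadicAlgCl p, (∀ z ∈ S, ‖θ z‖ ≤ 1) →
    ∀ x y (h : (CV a b).toAffine.Nonsingular x y), 1 < ‖θ x‖ →
      ∃ x' y' h', f (Affine.Point.some x y h) = Affine.Point.some x' y' h' ∧ ‖θ x'‖ = ‖θ x‖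

lemma good_id {a b : k} : Good (fun P : Pt a b => P) ∅ :=
  ⟨Mor.id, rfl, fun _ => rfl, fun _ _ _ _ h => h, fun _ _ _ _ _ x y h _ => ⟨x, y, h, rfl, rfl⟩⟩

lemma na_left {p : ℕ} [Fact p.Prime] {x y : PadicAlgCl p} (h : ‖y‖ < ‖x‖) : ‖x + y‖ = ‖x‖ := by
  rw [IsUltrametricDist.norm_add_eq_max_of_norm_ne_norm h.ne', max_eq_left h.le]

lemma norm_two {p : ℕ} [Fact p.Prime] (hp : 2 < p) : ‖(2 : PadicAlgCl p)‖ = 1 := by
  have := norm_int_one (p := p) (y := 2) (by norm_num) (by simpa using hp)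
  exact_mod_cast this

lemma psi_good {A B a b e : k} (h : Iso2 A B a b e) (hD : Disc a b) (ht : 4 * a + 3 * e ^ 2 ≠ 0) :
    Good (psi h hD) {a, e} := by
  refine ⟨psi_mor h hD ht, rfl, ?_, ?_, ?_⟩
  · intro P
    rcases P with _ | ⟨x, y, hxy⟩
    · rfl
    · rw [neg_some' hxy (neg_ns hxy)]
      by_cases hx : x + 2 * e = 0
      · rw [psi_pos h hD hxy hx, psi_pos h hD _ hx]
        rfl
      · rw [psi_neg h hD hxy hx, psi_neg h hD _ hx]
        have hns := (nonsingular_iff hD).2 (h.eqn (fun h2 => hD (by rw [h2, zero_mul])) hx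
          (eqn_of hxy))
        rw [neg_some' hns (neg_ns hns), Affine.Point.some.injEq]
        exact ⟨rfl, by ring⟩
  · intro g hg P Q hQ
    have ea : g a = a := hg a (by simp)
    have ee : g e = e := hg e (by simp)
    rcases P with _ | ⟨x, y, hxy⟩
    · rcases Q with _ | ⟨x', y', hxy'⟩
      · rfl
      · simp [coords] at hQ
    · rcases Q with _ | ⟨x', y', hxy'⟩
      · simp [coords] at hQ
      · simp only [coords, Option.map_some, Option.some.injEq, Prod.map, Prod.mk.injEq] at hQ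
        obtain ⟨rfl, rfl⟩ := hQ
        rw [coords_psi, coords_psi]
        have hiff : g x + 2 * e = 0 ↔ x + 2 * e = 0 := by
          have : g x + 2 * e = g (x + 2 * e) := by
            rw [map_add, map_mul, map_ofNat, ee]
          rw [this]
          exact map_eq_zero_iff g g.injective
        by_cases hx : x + 2 * e = 0
        · rw [if_pos hx, if_pos (hiff.2 hx)]
          rfl
        · rw [if_neg hx, if_neg (fun h => hx (hiff.1 h))]
          simp only [Option.map_some, Option.some.injEq, Prod.map, Prod.mk.injEq]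
          constructor
          · simp only [map_div₀, map_sub, map_add, map_mul, map_pow, map_ofNat, ea, ee]
          · simp only [map_div₀, map_add, map_mul, map_pow, map_ofNat, map_one, ea, ee]
  · intro p _ hp θ hθ x y hxy hx
    have na : ‖θ a‖ ≤ 1 := hθ a (by simp)
    have ne : ‖θ e‖ ≤ 1 := hθ e (by simp)
    have n2 := norm_two hp
    have n4 : ‖(4 : PadicAlgCl p)‖ = 1 := by
      have : (4 : PadicAlgCl p) = 2 * 2 := by norm_num
      rw [this, norm_mul, n2, mul_one]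
    have n3 : ‖(3 : PadicAlgCl p)‖ ≤ 1 := by
      have h1 := norm_le_of_int (p := p) (x := (3 : PadicAlgCl p)) (by
        have : IsIntegral ℤ ((3 : ℤ) : PadicAlgCl p) := isIntegral_algebraMap
        exact_mod_cast this)
      exact h1
    have nx : ‖θ x + 2 * θ e‖ = ‖θ x‖ := by
      apply na_left
      rw [norm_mul, n2, one_mul]
      linarith
    have hx0 : x + 2 * e ≠ 0 := by
      intro h0
      have h1 := congrArg θ h0
      rw [map_add, map_mul, map_ofNat, map_zero] at h1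
      rw [h1, norm_zero] at nx
      linarith
    refine ⟨_, _, _, psi_neg h hD hxy hx0, ?_⟩
    have nt : ‖4 * θ a + 3 * θ e ^ 2‖ ≤ 1 := by
      refine (IsUltrametricDist.norm_add_le_max _ _).trans (max_le ?_ ?_)
      · rw [norm_mul, n4, one_mul]; exact na
      · rw [norm_mul, norm_pow]
        calc ‖(3 : PadicAlgCl p)‖ * ‖θ e‖ ^ 2 ≤ 1 * 1 ^ 2 := by gcongr
          _ = 1 := by norm_num
    have nq : ‖(4 * θ a + 3 * θ e ^ 2) / (θ x + 2 * θ e)‖ < ‖θ x‖ := by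
      rw [norm_div, nx, div_lt_iff₀ (by linarith)]
      nlinarith
    have e1 : θ ((x - (4 * a + 3 * e ^ 2) / (x + 2 * e)) / 4) =
        (θ x - (4 * θ a + 3 * θ e ^ 2) / (θ x + 2 * θ e)) / 4 := by
      simp only [map_div₀, map_sub, map_add, map_mul, map_pow, map_ofNat]
    rw [e1, norm_div, n4, div_one, sub_eq_add_neg]
    apply na_left
    rw [norm_neg]
    exact nq

lemma Good.comp {a b a' b' a'' b'' : k} {f : Pt a b → Pt a' b'} {g : Pt a' b' → Pt a'' b''}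
    {S T : Finset k} (hg : Good g T) (hf : Good f S) : Good (fun P => g (f P)) (S ∪ T) := by
  refine ⟨hg.mor.comp hf.mor, by simp only [hf.zero, hg.zero], fun P => by simp only [hf.neg, hg.neg],
    ?_, ?_⟩
  · intro σ hσ P Q h
    exact hg.gal σ (fun z hz => hσ z (Finset.mem_union_right _ hz)) _ _
      (hf.gal σ (fun z hz => hσ z (Finset.mem_union_left _ hz)) _ _ h)
  · intro p _ hp θ hθ x y hxy hx
    obtain ⟨x', y', h', e1, e2⟩ := hf.big p hp θ (fun z hz => hθ z (Finset.mem_union_left _ hz))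
      x y hxy hx
    obtain ⟨x'', y'', h'', e3, e4⟩ := hg.big p hp θ (fun z hz => hθ z (Finset.mem_union_right _ hz))
      x' y' h' (by rw [e2]; exact hx)
    refine ⟨x'', y'', h'', ?_, e4.trans e2⟩
    rw [← e3, ← e1]

lemma disc_of {a b e₁ e₂ e₃ : k} (h : Rt a b e₁ e₂ e₃) : Disc a b := by
  unfold Disc
  have hdisc : (2 : k) * (4 * a ^ 3 + 27 * b ^ 2) =
      -2 * ((e₁ - e₂) * (e₁ - e₃) * (e₂ - e₃)) ^ 2 := by
    have h1 : e₃ = -e₁ - e₂ := by linear_combination h.sum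
    rw [h.ha, h.hb, h1]
    ring
  rw [hdisc]
  exact mul_ne_zero (by norm_num) (pow_ne_zero _ (mul_ne_zero (mul_ne_zero (sub_ne_zero.2 h.n12)
    (sub_ne_zero.2 h.n13)) (sub_ne_zero.2 h.n23)))

/-- the next curve -/
lemma Rt_next {a b e₁ e₂ e₃ s : k} (h : Rt a b e₁ e₂ e₃) (hs : s ^ 2 = (e₁ - e₂) * (e₁ - e₃)) :
    Rt (-4 * a - 15 * e₁ ^ 2) (-2 * e₁ * (11 * e₁ ^ 2 + 4 * a)) (e₁ + 2 * s) (-2 * e₁)
      (e₁ - 2 * s) := by
  have hs' : s ^ 2 = 3 * e₁ ^ 2 + a := by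
    have h1 : e₃ = -e₁ - e₂ := by linear_combination h.sum
    rw [hs, h.ha, h1]; ring
  have h23 : (3 * e₁ + 2 * s) * (3 * e₁ - 2 * s) = (e₂ - e₃) ^ 2 := by
    have h1 : e₃ = -e₁ - e₂ := by linear_combination h.sum
    have h2 : (3 * e₁ + 2 * s) * (3 * e₁ - 2 * s) = 9 * e₁ ^ 2 - 4 * s ^ 2 := by ring
    rw [h2, hs', h.ha, h1]; ring
  have hne : (e₂ - e₃) ^ 2 ≠ 0 := pow_ne_zero _ (sub_ne_zero.2 h.n23)
  have hs0 : s ≠ 0 := by
    rintro rfl
    have : (e₁ - e₂) * (e₁ - e₃) ≠ 0 := mul_ne_zero (sub_ne_zero.2 h.n12) (sub_ne_zero.2 h.n13)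
    apply this
    rw [← hs]; ring
  refine ⟨by ring, ?_, ?_, ?_, ?_, ?_⟩
  · linear_combination 4 * hs'
  · linear_combination 8 * e₁ * hs'
  · intro h0
    apply hne
    rw [← h23]
    have : 3 * e₁ + 2 * s = 0 := by linear_combination h0
    rw [this, zero_mul]
  · intro h0
    apply hs0
    have : 4 * s = 0 := by linear_combination h0
    exact (mul_eq_zero.1 this).resolve_left (by norm_num)
  · intro h0
    apply hne
    rw [← h23]
    have : 3 * e₁ - 2 * s = 0 := by linear_combination -h0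
    rw [this, mul_zero]

/-- a curve with a map to the curve with the coefficients `a₀, b₀` -/
structure Node (ι : k →+* ℂ) (a₀ b₀ : k) where
  a : k
  b : k
  e₁ : k
  e₂ : k
  e₃ : k
  rt : Rt a b e₁ e₂ e₃
  f : Pt a b → Pt a₀ b₀
  S : Finset k
  good : Good f S
  le : ‖ι ((e₃ - e₂) / (e₁ - e₂))‖ ≤ 1

lemma one_lt_norm {σ : ℂ} (h : 0 ≤ σ.re) (h0 : σ ≠ 0) : 1 < ‖1 + σ‖ := by
  have h1 : 0 < Complex.normSq σ := Complex.normSq_pos.2 h0
  have h2 : Complex.normSq (1 + σ) = 1 + 2 * σ.re + Complex.normSq σ := by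
    rw [Complex.normSq_apply, Complex.normSq_apply]
    simp only [Complex.add_re, Complex.one_re, Complex.add_im, Complex.one_im]
    ring
  have h3 : 1 < Complex.normSq (1 + σ) := by rw [h2]; linarith
  rw [Complex.normSq_eq_norm_sq] at h3
  by_contra hcon
  push Not at hcon
  have : ‖1 + σ‖ ^ 2 ≤ 1 := pow_le_one₀ (norm_nonneg _) hcon
  linarith

theorem exists_next {ι : k →+* ℂ} {a₀ b₀ : k} (N : Node ι a₀ b₀) : ∃ N' : Node ι a₀ b₀,
    ‖ι ((N'.e₃ - N'.e₂) / (N'.e₁ - N'.e₂))‖ < ‖ι ((N.e₃ - N.e₂) / (N.e₁ - N.e₂))‖ := by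
  obtain ⟨a, b, e₁, e₂, e₃, rt, f, S, good, le⟩ := N
  have n12 : e₁ - e₂ ≠ 0 := sub_ne_zero.2 rt.n12
  have n13 : e₁ - e₃ ≠ 0 := sub_ne_zero.2 rt.n13
  have n32 : e₃ - e₂ ≠ 0 := sub_ne_zero.2 rt.n23.symm
  obtain ⟨s₀, hs₀⟩ := IsAlgClosed.exists_pow_nat_eq ((e₁ - e₂) * (e₁ - e₃)) (n := 2) (by norm_num)
  obtain ⟨s, hs, hre⟩ : ∃ s : k, s ^ 2 = (e₁ - e₂) * (e₁ - e₃) ∧ 0 ≤ (ι (s / (e₁ - e₂))).re := by
    rcases le_total 0 (ι (s₀ / (e₁ - e₂))).re with h | h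
    · exact ⟨s₀, hs₀, h⟩
    · refine ⟨-s₀, by rw [neg_sq]; exact hs₀, ?_⟩
      rw [neg_div, map_neg, Complex.neg_re]
      linarith
  have hs0 : s ≠ 0 := by
    rintro rfl
    apply mul_ne_zero n12 n13
    rw [← hs]; ring
  obtain ⟨σ, hσ⟩ : ∃ σ, σ = s / (e₁ - e₂) := ⟨_, rfl⟩
  have hσ0 : σ ≠ 0 := by rw [hσ]; exact div_ne_zero hs0 n12
  have hsσ : s = σ * (e₁ - e₂) := by rw [hσ, div_mul_cancel₀ _ n12]
  have h13 : e₁ - e₃ = σ ^ 2 * (e₁ - e₂) := by
    apply mul_left_cancel₀ n12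
    rw [← hs, hsσ]; ring
  rw [← hσ] at hre
  have hb1 : 1 < ‖1 + ι σ‖ := one_lt_norm hre ((map_ne_zero ι).2 hσ0)
  have hσ1 : 1 + σ ≠ 0 := by
    intro h0
    have := congrArg ι h0
    rw [map_add, map_one, map_zero] at this
    rw [this, norm_zero] at hb1
    linarith
  have hrt := Rt_next rt hs
  have hD := disc_of rt
  have hiso : Iso2 (-4 * a - 15 * e₁ ^ 2) (-2 * e₁ * (11 * e₁ ^ 2 + 4 * a)) a b e₁ :=
    ⟨rfl, rfl, rt.root1⟩
  have ht : 4 * a + 3 * e₁ ^ 2 ≠ 0 := by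
    have h1 : 4 * a + 3 * e₁ ^ 2 = -(e₂ - e₃) ^ 2 := by
      have h1 : e₃ = -e₁ - e₂ := by linear_combination rt.sum
      rw [rt.ha, h1]; ring
    rw [h1]
    exact neg_ne_zero.2 (pow_ne_zero _ (sub_ne_zero.2 rt.n23))
  have hm : (e₃ - e₂) / (e₁ - e₂) = (1 - σ) * (1 + σ) := by
    rw [div_eq_iff n12]
    linear_combination -h13
  have h3e : 3 * e₁ = (1 + σ ^ 2) * (e₁ - e₂) := by
    linear_combination h13 + rt.sum
  have hm' : ((e₁ - 2 * s) - (-2 * e₁)) / ((e₁ + 2 * s) - (-2 * e₁)) =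
      ((1 - σ) * (1 + σ)) ^ 2 / (1 + σ) ^ 4 := by
    have hd : (e₁ + 2 * s) - (-2 * e₁) = (1 + σ) ^ 2 * (e₁ - e₂) := by
      rw [hsσ]; linear_combination h3e
    have hn : (e₁ - 2 * s) - (-2 * e₁) = (1 - σ) ^ 2 * (e₁ - e₂) := by
      rw [hsσ]; linear_combination h3e
    rw [hd, hn, mul_div_mul_right _ _ n12]
    field_simp
  have hlt : ‖ι (((e₁ - 2 * s) - (-2 * e₁)) / ((e₁ + 2 * s) - (-2 * e₁)))‖ <
      ‖ι ((e₃ - e₂) / (e₁ - e₂))‖ := by
    rw [hm', ← hm]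
    have hpos : 0 < ‖ι ((e₃ - e₂) / (e₁ - e₂))‖ :=
      norm_pos_iff.2 ((map_ne_zero ι).2 (div_ne_zero n32 n12))
    rw [map_div₀, map_pow, map_pow, norm_div, norm_pow, norm_pow, map_add, map_one]
    have h4 : 1 < ‖1 + ι σ‖ ^ 4 := one_lt_pow₀ hb1 (by norm_num)
    rw [div_lt_iff₀ (by linarith)]
    have h5 : ‖ι ((e₃ - e₂) / (e₁ - e₂))‖ ^ 2 ≤ ‖ι ((e₃ - e₂) / (e₁ - e₂))‖ := by
      rw [pow_two]
      exact mul_le_of_le_one_right hpos.le le
    nlinarith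
  exact ⟨⟨_, _, _, _, _, hrt, _, _, good.comp (psi_good hiso hD ht), hlt.le.trans le⟩, hlt⟩

/-- the first curve -/
theorem exists_first (ι : k →+* ℂ) {a b : k} (hD : Disc a b) : Nonempty (Node ι a b) := by
  obtain ⟨e₁, e₂, e₃, h⟩ := exists_Rt hD
  have key : ∀ e₁ e₂ e₃ : k, Rt a b e₁ e₂ e₃ → ‖ι (e₃ - e₂)‖ ≤ ‖ι (e₁ - e₂)‖ →
      Nonempty (Node ι a b) := by
    intro e₁ e₂ e₃ h hle
    refine ⟨⟨a, b, e₁, e₂, e₃, h, _, _, good_id, ?_⟩⟩
    rw [map_div₀, norm_div]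
    exact div_le_one_of_le₀ hle (norm_nonneg _)
  rcases le_total ‖ι (e₃ - e₂)‖ ‖ι (e₁ - e₂)‖ with h1 | h1
  · exact key _ _ _ h h1
  · exact key _ _ _ h.swap12.swap23.swap12 h1

/-- **infinitely many curves** -/
theorem exists_nodes (ι : k →+* ℂ) {a b : k} (hD : Disc a b) : ∃ N : ℕ → Node ι a b,
    ∀ m n, m ≠ n → kap (N m).e₁ (N m).e₂ (N m).e₃ ≠ kap (N n).e₁ (N n).e₂ (N n).e₃ := by
  obtain ⟨N₀⟩ := exists_first ι hD
  choose nx hnx using exists_next (ι := ι) (a₀ := a) (b₀ := b)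
  let N : ℕ → Node ι a b := fun n => Nat.rec N₀ (fun _ M => nx M) n
  have hN : ∀ n, N (n + 1) = nx (N n) := fun n => rfl
  have hanti : StrictAnti fun n => ‖ι (((N n).e₃ - (N n).e₂) / ((N n).e₁ - (N n).e₂))‖ := by
    apply strictAnti_nat_of_succ_lt
    intro n
    rw [hN]
    exact hnx _
  refine ⟨N, fun m n hmn he => hmn (hanti.injective ?_)⟩
  have hk : ∀ M : Node ι a b, (M.e₃ - M.e₂) / (M.e₁ - M.e₂) = 1 - kap M.e₁ M.e₂ M.e₃ := by
    intro M
    have := sub_ne_zero.2 M.rt.n12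
    unfold kap
    field_simp
    ring
  simp only [hk, he]

end Pool.Agent.Run7.h780.GR
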