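import Pool.Agent.Run7.h780.GR.Fix

/-!
# The choice of the primes and of the parameter
-/

set_option autoImplicit false
set_option linter.all false

namespace Pool.Agent.Run7.h780.GR

open WeierstrassCurve Pool.Agent.H901R3.MS Pool.Agent.Run7.h780.ZC
open scoped Classical

lemma norm_dvd {p : ℕ} [Fact p.Prime] {c : ℤ} {n : ℕ} (h : (p : ℤ) ^ n ∣ c) :
    ‖(c : PadicAlgCl p)‖ ≤ ((p : ℝ)⁻¹) ^ n := by
  obtain ⟨d, rfl⟩ := h
  push_cast
  have h1 : ‖(d : PadicAlgCl p)‖ ≤ 1 := norm_le_of_int (by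
    exact isIntegral_algebraMap (R := ℤ) (A := PadicAlgCl p) (x := d))
  rw [norm_mul, norm_pow, norm_p]
  have h2 : (0 : ℝ) ≤ ((p : ℝ)⁻¹) ^ n := by positivity
  calc ((p : ℝ)⁻¹) ^ n * ‖(d : PadicAlgCl p)‖ ≤ ((p : ℝ)⁻¹) ^ n * 1 := by gcongr
    _ = _ := mul_one _

theorem exists_param {J : Type} [Fintype J] (κ : J → AlgebraicClosure ℚ) (B : ℕ) :
    ∃ (p : J → ℕ) (X : AlgebraicClosure ℚ), (∀ j, (p j).Prime ∧ B ≤ p j) ∧
      (∀ g : AlgebraicClosure ℚ ≃ₐ[ℚ] AlgebraicClosure ℚ, (∀ j, g (κ j) = κ j) → g X = X) ∧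
      ∀ (j : J) [Fact (p j).Prime] (θ : AlgebraicClosure ℚ →+* PadicAlgCl (p j)),
        (∀ i, ‖θ (κ i)‖ ≤ 1) → ‖θ (X - κ j)‖ = ((p j : ℝ)⁻¹) ^ 3 := by
  obtain ⟨p, hpd⟩ : ∃ p : J → ℕ, p = fun j => Nat.nth Nat.Prime (B + (Fintype.equivFin J j : ℕ)) :=
    ⟨_, rfl⟩
  have hpr : ∀ j, (p j).Prime := by
    intro j
    rw [hpd]
    exact Nat.prime_nth_prime _
  have hpB : ∀ j, B ≤ p j := by
    intro j
    rw [hpd]
    have := Nat.add_two_le_nth_prime (B + (Fintype.equivFin J j : ℕ))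
    show B ≤ Nat.nth Nat.Prime (B + (Fintype.equivFin J j : ℕ))
    omega
  have hinj : Function.Injective p := by
    intro i j hij
    rw [hpd] at hij
    have h1 := Nat.nth_injective Nat.infinite_setOf_prime hij
    have h2 : (Fintype.equivFin J i : ℕ) = (Fintype.equivFin J j : ℕ) := by omega
    exact (Fintype.equivFin J).injective (Fin.ext h2)
  have hcop : Set.Pairwise (Finset.univ : Finset J) (Function.onFun Nat.Coprime fun i => p i ^ 4) := by
    intro i _ j _ hij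
    exact Nat.Coprime.pow 4 4 ((Nat.coprime_primes (hpr i) (hpr j)).2 fun h => hij (hinj h))
  have hc : ∀ j : J, ∃ c : ℕ, ∀ i, c ≡ (if i = j then 1 else 0) [MOD p i ^ 4] := by
    intro j
    obtain ⟨c, hc⟩ := Nat.chineseRemainderOfFinset (fun i => if i = j then 1 else 0)
      (fun i => p i ^ 4) Finset.univ (fun i _ => pow_ne_zero _ (hpr i).ne_zero) hcop
    exact ⟨c, fun i => hc i (Finset.mem_univ _)⟩
  choose c hc using hc
  refine ⟨p, ∑ i, (c i : AlgebraicClosure ℚ) * (κ i + (p i : AlgebraicClosure ℚ) ^ 3),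
    fun j => ⟨hpr j, hpB j⟩, ?_, ?_⟩
  · intro g hg
    rw [map_sum]
    refine Finset.sum_congr rfl fun i _ => ?_
    rw [map_mul, map_add, map_pow, map_natCast, map_natCast, hg]
  · intro j _ θ hθ
    have hp1 : (1 : ℝ) < p j := by exact_mod_cast (hpr j).one_lt
    have hd : ∀ i, i ≠ j → ‖(c i : PadicAlgCl (p j))‖ ≤ ((p j : ℝ)⁻¹) ^ 4 := by
      intro i hij
      have h1 := hc i j
      rw [if_neg (Ne.symm hij)] at h1
      have h2 : ((p j : ℤ) ^ 4) ∣ ((c i : ℕ) : ℤ) := by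
        have := (Nat.modEq_zero_iff_dvd.1 h1)
        exact_mod_cast this
      have := norm_dvd h2
      rwa [Int.cast_natCast] at this
    have hd1 : ‖(c j : PadicAlgCl (p j)) - 1‖ ≤ ((p j : ℝ)⁻¹) ^ 4 := by
      have h1 := hc j j
      rw [if_pos rfl] at h1
      have h2 : ((p j : ℤ) ^ 4) ∣ ((c j : ℕ) : ℤ) - 1 := by
        have := (Nat.modEq_iff_dvd.1 h1.symm)
        push_cast at this
        exact this
      have := norm_dvd h2
      push_cast at this
      exact this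
    have hb : ∀ i, ‖θ (κ i) + (p i : PadicAlgCl (p j)) ^ 3‖ ≤ 1 := by
      intro i
      refine (IsUltrametricDist.norm_add_le_max _ _).trans (max_le (hθ i) ?_)
      rw [norm_pow]
      exact pow_le_one₀ (norm_nonneg _) (norm_nat _)
    have e : θ (∑ i, (c i : AlgebraicClosure ℚ) * (κ i + (p i : AlgebraicClosure ℚ) ^ 3) - κ j) =
        (p j : PadicAlgCl (p j)) ^ 3 +
          (((c j : PadicAlgCl (p j)) - 1) * (θ (κ j) + (p j : PadicAlgCl (p j)) ^ 3) +
            ∑ i ∈ Finset.univ.erase j, (c i : PadicAlgCl (p j)) *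
              (θ (κ i) + (p i : PadicAlgCl (p j)) ^ 3)) := by
      rw [map_sub, map_sum, ← Finset.add_sum_erase _ _ (Finset.mem_univ j)]
      simp only [map_mul, map_add, map_pow, map_natCast]
      ring
    have hsmall : ‖((c j : PadicAlgCl (p j)) - 1) * (θ (κ j) + (p j : PadicAlgCl (p j)) ^ 3) +
            ∑ i ∈ Finset.univ.erase j, (c i : PadicAlgCl (p j)) *
              (θ (κ i) + (p i : PadicAlgCl (p j)) ^ 3)‖ ≤ ((p j : ℝ)⁻¹) ^ 4 := by
      have h0 : (0 : ℝ) ≤ ((p j : ℝ)⁻¹) ^ 4 := by positivity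
      refine (IsUltrametricDist.norm_add_le_max _ _).trans (max_le ?_ ?_)
      · rw [norm_mul]
        calc _ ≤ ((p j : ℝ)⁻¹) ^ 4 * 1 := mul_le_mul hd1 (hb j) (norm_nonneg _) h0
          _ = _ := mul_one _
      · refine IsUltrametricDist.norm_sum_le_of_forall_le_of_nonneg h0 fun i hi => ?_
        rw [norm_mul]
        calc _ ≤ ((p j : ℝ)⁻¹) ^ 4 * 1 :=
              mul_le_mul (hd i (Finset.ne_of_mem_erase hi)) (hb i) (norm_nonneg _) h0
          _ = _ := mul_one _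
    have h3 : ‖(p j : PadicAlgCl (p j)) ^ 3‖ = ((p j : ℝ)⁻¹) ^ 3 := by rw [norm_pow, norm_p]
    rw [e, na_left, h3]
    refine hsmall.trans_lt ?_
    rw [h3]
    have hi0 : (0 : ℝ) < (p j : ℝ)⁻¹ := by positivity
    have hi1 : (p j : ℝ)⁻¹ < 1 := inv_lt_one_of_one_lt₀ hp1
    exact pow_lt_pow_right_of_lt_one₀ hi0 hi1 (by norm_num)

end Pool.Agent.Run7.h780.GR
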