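import Pool.Agent.Run7.h780.GR.Ine
import Pool.Agent.Run7.h780.GR.Chain
import Pool.Agent.Run7.h780.ZC.Last2

/-!
# Automorphisms which act trivially on the residue field
-/

set_option autoImplicit false
set_option linter.all false

namespace Pool.Agent.Run7.h780.GR

open WeierstrassCurve Pool.Agent.H901R3.MS Pool.Agent.Run7.h780.ZC Pool.Agent.W275.FML
open Pool.Agent.Run7.h507.Loc1 (plp)
open scoped Classical

/-- `g` acts trivially on the residue field at `θ` -/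
def Triv {p : ℕ} [Fact p.Prime] (θ : AlgebraicClosure ℚ →+* PadicAlgCl p)
    (g : AlgebraicClosure ℚ ≃ₐ[ℚ] AlgebraicClosure ℚ) : Prop :=
  ∀ x, ‖θ x‖ ≤ 1 → ‖θ (g x - x)‖ < 1

lemma exists_fix (z : AlgebraicClosure ℚ) : ∃ p₀ : ℕ, ∀ p : ℕ, p₀ ≤ p → ∀ [Fact p.Prime]
    (θ : AlgebraicClosure ℚ →+* PadicAlgCl p) (g : AlgebraicClosure ℚ ≃ₐ[ℚ] AlgebraicClosure ℚ),
    Triv θ g → g z = z := by
  have hN := normal_rat
  have hint : IsIntegral ℚ z := hN.isIntegral z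
  obtain ⟨Z, hZ⟩ : ∃ Z : Finset (AlgebraicClosure ℚ), Z = insert z
    ((((minpoly ℚ z).aroots (AlgebraicClosure ℚ)).toFinset).image fun w => w - z) := ⟨_, rfl⟩
  obtain ⟨p₀, hp₀⟩ := exists_good_finset Z
  refine ⟨p₀, fun p hp _ θ g hg => ?_⟩
  have h1 := hp₀ p hp θ
  have hz := (h1 z (by rw [hZ]; simp)).1
  have hr : g z ∈ ((minpoly ℚ z).aroots (AlgebraicClosure ℚ)).toFinset := by
    rw [Multiset.mem_toFinset, Polynomial.mem_aroots]
    refine ⟨minpoly.ne_zero hint, ?_⟩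
    have h2 : Polynomial.aeval (g z) (minpoly ℚ z) = g (Polynomial.aeval z (minpoly ℚ z)) :=
      Polynomial.aeval_algHom_apply (g : AlgebraicClosure ℚ →ₐ[ℚ] AlgebraicClosure ℚ) z
        (minpoly ℚ z)
    rw [h2, minpoly.aeval, map_zero]
  have h3 := (h1 (g z - z) (by
    rw [hZ]
    exact Finset.mem_insert_of_mem (Finset.mem_image_of_mem _ hr))).2
  by_contra hne
  have h4 := h3 (sub_ne_zero.2 hne)
  have h5 := hg z hz
  linarith

lemma exists_fix_finset (Z : Finset (AlgebraicClosure ℚ)) : ∃ p₀ : ℕ, ∀ p : ℕ, p₀ ≤ p →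
    ∀ [Fact p.Prime] (θ : AlgebraicClosure ℚ →+* PadicAlgCl p)
    (g : AlgebraicClosure ℚ ≃ₐ[ℚ] AlgebraicClosure ℚ), Triv θ g → ∀ z ∈ Z, g z = z := by
  choose f hf using exists_fix
  refine ⟨Z.sup f, fun p hp _ θ g hg z hz => ?_⟩
  exact hf z p ((Finset.le_sup hz).trans hp) θ g hg

/-- square roots of units are fixed -/
lemma fix_sqrt {p : ℕ} [Fact p.Prime] (hp : 2 < p) {θ : AlgebraicClosure ℚ →+* PadicAlgCl p}
    {g : AlgebraicClosure ℚ ≃ₐ[ℚ] AlgebraicClosure ℚ} (hg : Triv θ g) {η : AlgebraicClosure ℚ}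
    (h1 : ‖θ η‖ = 1) (h2 : g (η ^ 2) = η ^ 2) : g η = η := by
  rw [map_pow] at h2
  rcases sq_eq_sq_iff_eq_or_eq_neg.1 h2 with h | h
  · exact h
  · exfalso
    have h3 := hg η h1.le
    have e : g η - η = -(2 * η) := by rw [h]; ring
    rw [e, map_neg, norm_neg, map_mul, map_ofNat, norm_mul, norm_two hp, one_mul, h1] at h3
    exact lt_irrefl _ h3

/-- points with large abscissa have infinite order -/
lemma nontors {p : ℕ} [Fact p.Prime] {θ : AlgebraicClosure ℚ →+* PadicAlgCl p}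
    {a b x y : AlgebraicClosure ℚ} (na : ‖θ a‖ ≤ 1) (nb : ‖θ b‖ ≤ 1)
    (h : (CV a b).toAffine.Nonsingular x y) (hx : (p : ℝ) ^ 2 < ‖θ x‖) {n : ℕ} (hn : n ≠ 0) :
    n • (Affine.Point.some x y h : Pt a b) ≠ 0 := by
  intro h0
  have hp1 : (1 : ℝ) < p := by exact_mod_cast (Fact.out : p.Prime).one_lt
  have hx1 : 1 < ‖θ x‖ := lt_trans (one_lt_pow₀ hp1 (by norm_num)) hx
  have g := ns_map θ (rfl : θ a = θ a) (rfl : θ b = θ b) h
  have hyn := size_y na nb (eqn_of g) hx1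
  have hE : E1 (plp p) (Affine.Point.some _ _ g : Pt (θ a) (θ b)) := by
    intro u w h e
    rw [Affine.Point.some.injEq] at e
    rw [← e.1, mem_v, not_le]
    exact hx1
  have htt : ‖tt (Affine.Point.some _ _ g : Pt (θ a) (θ b))‖ < (p : ℝ)⁻¹ := by
    show ‖θ x / θ y‖ < _
    have h1 : ‖θ x / θ y‖ ^ 2 = ‖θ x‖⁻¹ := by
      have hx0 : ‖θ x‖ ≠ 0 := by linarith
      rw [norm_div, div_pow, hyn]
      field_simp
    have h2 : ‖θ x‖⁻¹ < ((p : ℝ)⁻¹) ^ 2 := by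
      rw [inv_pow]
      exact inv_strictAnti₀ (by positivity) hx
    rw [← h1] at h2
    exact lt_of_pow_lt_pow_left₀ 2 (by positivity) h2
  apply cE1_nontorsion na nb hE htt (Affine.Point.some_ne_zero _) hn
  have h1 := congrArg (pmap θ (rfl : θ a = θ a) (rfl : θ b = θ b)) h0
  rw [map_nsmul, map_zero, pmap_some] at h1
  exact h1

end Pool.Agent.Run7.h780.GR
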