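import Pool.Agent.Y715.Nr

/-!
# Elements of the inertia groups which move the square root of `p`
-/

set_option autoImplicit false

namespace Pool.Agent.Run7.h780.GR

open Pool.Agent.W237.RK Pool.Agent.Y715.Nr

theorem normal_rat : Normal ℚ (AlgebraicClosure ℚ) := by
  have h : @Normal ℚ (AlgebraicClosure ℚ) _ _ (AlgebraicClosure.instAlgebra ℚ) := inferInstance
  have e : (AlgebraicClosure.instAlgebra ℚ : Algebra ℚ (AlgebraicClosure ℚ)) =
      DivisionRing.toRatAlgebra := Subsingleton.elim _ _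
  rwa [e] at h

/-- an automorphism of the algebraic numbers which acts trivially on the residue field at `θ` and moves the
square root of `p` -/
theorem exists_inertia {p : ℕ} [Fact p.Prime] (θ : AlgebraicClosure ℚ →+* PadicAlgCl p)
    {π : AlgebraicClosure ℚ} (hπ : π ^ 2 = (p : AlgebraicClosure ℚ)) :
    ∃ g : AlgebraicClosure ℚ ≃ₐ[ℚ] AlgebraicClosure ℚ,
      (∀ x, ‖θ x‖ ≤ 1 → ‖θ (g x - x)‖ < 1) ∧ g π = -π := by
  have hp : p.Prime := Fact.out
  have hp1 : (1 : ℝ) < p := by exact_mod_cast hp.one_lt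
  have hz2 : (θ π) ^ 2 = (p : PadicAlgCl p) := by rw [← map_pow, hπ, map_natCast]
  have hnp : ‖(p : PadicAlgCl p)‖ = (p : ℝ)⁻¹ := by
    have h := PadicAlgCl.norm_extends p (p : ℚ_[p])
    rw [Padic.norm_p] at h
    rw [← h]
    congr 1
  have hz0 : θ π ≠ 0 := by
    intro h
    rw [h, zero_pow two_ne_zero] at hz2
    have : ‖(p : PadicAlgCl p)‖ = 0 := by rw [← hz2, norm_zero]
    rw [hnp] at this
    have h2 := inv_eq_zero.1 this
    linarith
  have hk : θ π ∉ kur p := by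
    intro hk
    obtain ⟨m, hm⟩ := norm_ne hz0 hk
    have h1 : ‖θ π‖ ^ 2 = (p : ℝ)⁻¹ := by rw [← norm_pow, hz2, hnp]
    rw [hm, ← zpow_natCast, ← zpow_mul, ← zpow_neg_one] at h1
    have h2 := zpow_right_injective₀ (by linarith) (by linarith) h1
    push_cast at h2
    omega
  obtain ⟨τ, hτ, hτz⟩ : ∃ τ : Au p, (∀ x ∈ kur p, τ x = x) ∧ τ (θ π) ≠ θ π := by
    by_contra hcon
    push Not at hcon
    exact hk (mem_kur hcon)
  have hin := inert_of_kur hτ
  have hN := normal_rat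
  let : Algebra (AlgebraicClosure ℚ) (PadicAlgCl p) := θ.toAlgebra
  have : IsScalarTower ℚ (AlgebraicClosure ℚ) (PadicAlgCl p) :=
    IsScalarTower.of_algebraMap_eq fun x => by
      rw [eq_ratCast, eq_ratCast, map_ratCast]
  let τ' : PadicAlgCl p ≃ₐ[ℚ] PadicAlgCl p := τ.restrictScalars ℚ
  let g : AlgebraicClosure ℚ ≃ₐ[ℚ] AlgebraicClosure ℚ := τ'.restrictNormal (AlgebraicClosure ℚ)
  have hg : ∀ x, θ (g x) = τ (θ x) := fun x => τ'.restrictNormal_commutes (AlgebraicClosure ℚ) x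
  refine ⟨g, fun x hx => ?_, ?_⟩
  · rw [map_sub, hg]
    exact hin _ hx
  · have h1 : (g π) ^ 2 = π ^ 2 := by
      rw [← map_pow, hπ, map_natCast]
    rcases sq_eq_sq_iff_eq_or_eq_neg.1 h1 with h | h
    · exfalso
      apply hτz
      rw [← hg, h]
    · exact h

end Pool.Agent.Run7.h780.GR
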