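import Pool.Agent.Run7.h780.GR.Fix

/-!
# Number fields of discriminant prime to `p` are fixed by the inertia groups at `p`
-/

set_option autoImplicit false
set_option linter.all false

namespace Pool.Agent.Run7.h780.GR

open Pool.Agent.Run7.h780.ZC
open scoped Classical

lemma det_small {n : Type*} [Fintype n] {p : ℕ} [Fact p.Prime]
    (M : Matrix n n (PadicAlgCl p)) (hM : ∀ i j, ‖M i j‖ ≤ 1) (j₀ : n)
    (h : ∀ i, ‖M i j₀‖ < 1) : ‖M.det‖ < 1 := by
  rw [Matrix.det_apply']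
  obtain ⟨σ, -, hσ⟩ := IsUltrametricDist.exists_norm_finset_sum_le_of_nonempty
    (Finset.univ_nonempty (α := Equiv.Perm n))
    (fun σ : Equiv.Perm n => ((Equiv.Perm.sign σ : ℤ) : PadicAlgCl p) * ∏ i, M (σ i) i)
  refine hσ.trans_lt ?_
  have h1 : ‖((Equiv.Perm.sign σ : ℤ) : PadicAlgCl p)‖ ≤ 1 := norm_le_of_int (by
    exact isIntegral_algebraMap (R := ℤ) (A := PadicAlgCl p) (x := (Equiv.Perm.sign σ : ℤ)))
  rw [norm_mul, norm_prod, ← Finset.mul_prod_erase _ _ (Finset.mem_univ j₀)]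
  have h2 : ∏ i ∈ Finset.univ.erase j₀, ‖M (σ i) i‖ ≤ 1 :=
    Finset.prod_le_one (fun _ _ => norm_nonneg _) fun i _ => hM _ _
  have h3 : 0 ≤ ∏ i ∈ Finset.univ.erase j₀, ‖M (σ i) i‖ :=
    Finset.prod_nonneg fun _ _ => norm_nonneg _
  calc _ ≤ 1 * (‖M (σ j₀) j₀‖ * ∏ i ∈ Finset.univ.erase j₀, ‖M (σ i) i‖) := by
        apply mul_le_mul_of_nonneg_right h1
        exact mul_nonneg (norm_nonneg _) h3
    _ ≤ ‖M (σ j₀) j₀‖ * 1 := by
        rw [one_mul]
        exact mul_le_mul_of_nonneg_left h2 (norm_nonneg _)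
    _ < 1 := by rw [mul_one]; exact h _

lemma norm_unit {p : ℕ} [hp : Fact p.Prime] {d : ℤ} (h : ¬ (p : ℤ) ∣ d) :
    ‖(d : PadicAlgCl p)‖ = 1 := by
  have hle : ∀ c : ℤ, ‖(c : PadicAlgCl p)‖ ≤ 1 := fun c => norm_le_of_int (by
    exact isIntegral_algebraMap (R := ℤ) (A := PadicAlgCl p) (x := c))
  apply le_antisymm (hle d)
  by_contra hlt
  push Not at hlt
  have hc : IsCoprime (p : ℤ) d :=
    (Prime.coprime_iff_not_dvd (Nat.prime_iff_prime_int.1 hp.out)).2 h
  obtain ⟨u, v, huv⟩ := hc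
  have h1 : (1 : PadicAlgCl p) = u * p + v * d := by
    have := congrArg (Int.cast : ℤ → PadicAlgCl p) huv
    push_cast at this
    exact this.symm
  have hp1 : (1 : ℝ) < p := by exact_mod_cast hp.out.one_lt
  have h2 : ‖(1 : PadicAlgCl p)‖ < 1 := by
    rw [h1]
    refine (IsUltrametricDist.norm_add_le_max _ _).trans_lt (max_lt ?_ ?_)
    · rw [norm_mul, norm_p]
      calc _ ≤ 1 * (p : ℝ)⁻¹ := mul_le_mul_of_nonneg_right (hle u) (by positivity)
        _ < 1 := by rw [one_mul]; exact inv_lt_one_of_one_lt₀ hp1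
    · rw [norm_mul]
      calc _ ≤ 1 * ‖(d : PadicAlgCl p)‖ := mul_le_mul_of_nonneg_right (hle v) (norm_nonneg _)
        _ < 1 := by rw [one_mul]; exact hlt
  rw [norm_one] at h2
  exact lt_irrefl _ h2

/-- **unramified fields are fixed by inertia** -/
theorem fix_of_discr {p : ℕ} [Fact p.Prime] {θ : AlgebraicClosure ℚ →+* PadicAlgCl p}
    {g : AlgebraicClosure ℚ ≃ₐ[ℚ] AlgebraicClosure ℚ} (hg : Triv θ g)
    (L : Subfield (AlgebraicClosure ℚ)) [NumberField L]
    (hL : ¬ (p : ℤ) ∣ NumberField.discr L) : ∀ z ∈ L, g z = z := by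
  obtain ⟨ι, hι⟩ : ∃ ι, ι = Module.Free.ChooseBasisIndex ℤ (NumberField.RingOfIntegers L) :=
    ⟨_, rfl⟩
  -- two embeddings
  let σ₁ : L →ₐ[ℚ] AlgebraicClosure ℚ := RingHom.toRatAlgHom L.subtype
  let σ₂ : L →ₐ[ℚ] AlgebraicClosure ℚ :=
    RingHom.toRatAlgHom ((g : AlgebraicClosure ℚ →+* AlgebraicClosure ℚ).comp L.subtype)
  by_contra hcon
  push Not at hcon
  obtain ⟨z, hz, hgz⟩ := hcon
  have hne : σ₂ ≠ σ₁ := by
    intro h
    apply hgz
    exact congrArg (fun τ : L →ₐ[ℚ] AlgebraicClosure ℚ => τ ⟨z, hz⟩) h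
  have hcard : Fintype.card (Module.Free.ChooseBasisIndex ℤ (NumberField.RingOfIntegers L)) =
      Fintype.card (L →ₐ[ℚ] AlgebraicClosure ℚ) := by
    rw [AlgHom.card, ← NumberField.RingOfIntegers.rank L,
      Module.finrank_eq_card_chooseBasisIndex]
  obtain ⟨e⟩ : Nonempty (Module.Free.ChooseBasisIndex ℤ (NumberField.RingOfIntegers L) ≃
      (L →ₐ[ℚ] AlgebraicClosure ℚ)) := ⟨Fintype.equivOfCardEq hcard⟩
  have h1 := Algebra.discr_eq_det_embeddingsMatrixReindex_pow_two ℚ (AlgebraicClosure ℚ)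
    (NumberField.integralBasis L) e
  rw [← NumberField.coe_discr] at h1
  obtain ⟨M, hM⟩ : ∃ M, M = Algebra.embeddingsMatrixReindex ℚ (AlgebraicClosure ℚ)
    (NumberField.integralBasis L) e := ⟨_, rfl⟩
  have hMe : ∀ i j, M i j = e j (NumberField.integralBasis L i) := by
    intro i j
    rw [hM]
    rfl
  rw [← hM] at h1
  have h2 : ((NumberField.discr L : ℤ) : PadicAlgCl p) = (θ M.det) ^ 2 := by
    rw [← map_pow, ← h1]
    simp
  have h3 : ‖θ M.det‖ < 1 := by
    have hij : e.symm σ₂ ≠ e.symm σ₁ := fun h => hne (e.symm.injective h)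
    have hd := Matrix.det_updateCol_add_smul_self M hij (-1)
    rw [← hd, RingHom.map_det, RingHom.mapMatrix_apply]
    have hint : ∀ i j, ‖θ (M i j)‖ ≤ 1 := by
      intro i j
      apply norm_le_of_int
      have k1 : IsIntegral ℤ (NumberField.integralBasis L i) := by
        rw [NumberField.integralBasis_apply]
        exact NumberField.RingOfIntegers.isIntegral_coe _
      rw [hMe]
      exact (k1.map ((e j : L →ₐ[ℚ] AlgebraicClosure ℚ) : L →+* AlgebraicClosure ℚ).toIntAlgHom).map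
        θ.toIntAlgHom
    have hcol : ∀ i, ‖θ (M i (e.symm σ₂) + (-1 : AlgebraicClosure ℚ) • M i (e.symm σ₁))‖ < 1 := by
      intro i
      have k2 : M i (e.symm σ₂) = g (M i (e.symm σ₁)) := by
        rw [hMe, hMe, Equiv.apply_symm_apply, Equiv.apply_symm_apply]
        rfl
      have k3 := hg _ (hint i (e.symm σ₁))
      rw [k2, neg_one_smul, ← sub_eq_add_neg]
      exact k3
    apply det_small _ _ (e.symm σ₂)
    · intro i
      rw [Matrix.map_apply, Matrix.updateCol_self]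
      exact hcol i
    · intro i j
      rw [Matrix.map_apply]
      by_cases hj : j = e.symm σ₂
      · rw [hj, Matrix.updateCol_self]
        exact (hcol i).le
      · rw [Matrix.updateCol_ne hj]
        exact hint i j
  have h4 := norm_unit hL
  rw [h2, norm_pow] at h4
  have h5 : ‖θ M.det‖ ^ 2 < 1 := pow_lt_one₀ (norm_nonneg _) h3 two_ne_zero
  linarith

end Pool.Agent.Run7.h780.GR
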