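import Pool.Agent.Run7.h780.GR.Act
import Pool.Agent.Run7.h780.GR.Rel
import Pool.Agent.Run7.h780.GR.Choose
import Pool.Agent.Run7.h780.GR.Unr

/-!
# Isotropic grids of points
-/

set_option autoImplicit false
set_option linter.all false

namespace Pool.Agent.Run7.h780.GR

open WeierstrassCurve Pool.Agent.H901R3.MS Pool.Agent.Run7.h780.ZC
open scoped Classical

/-- the coordinates are in `L` -/
def InL (L : Subfield (AlgebraicClosure ℚ)) {a b : AlgebraicClosure ℚ} (P : Pt a b) :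
    Prop := ∀ z ∈ coords P, z.1 ∈ L ∧ z.2 ∈ L

lemma exists_emb (K : Type) [Field K] [IsAlgClosed K] [CharZero K] :
    Nonempty (AlgebraicClosure ℚ →+* K) := by
  have hN := normal_rat
  have : Algebra.IsAlgebraic ℚ (AlgebraicClosure ℚ) := hN.toIsAlgebraic
  exact ⟨(IsAlgClosed.lift : AlgebraicClosure ℚ →ₐ[ℚ] K).toRingHom⟩

section ortho
variable {k : Type} [Field k] [IsAlgClosed k] [CharZero k]

/-- orthogonality of the images -/
theorem ortho {ι : k →+* ℂ} {a b c d : k} (hD : Disc a b) (hD' : Disc c d)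
    (B : Pt a b →+ Pt c d →+ CH a b c d) (hB : ∀ P Q, B P Q = QuotientAddGroup.mk (cyc P Q))
    (N : Node ι a b) (N' : Node ι c d) {X y y' : k}
    (hX : X ≠ kap N.e₁ N.e₂ N.e₃) (hX' : X ≠ kap N'.e₁ N'.e₂ N'.e₃)
    (h : (CV N.a N.b).toAffine.Nonsingular (xi N.e₁ N.e₂ N.e₃ X) y)
    (h' : (CV N'.a N'.b).toAffine.Nonsingular (xi N'.e₁ N'.e₂ N'.e₃ X) y') :
    B (2 • N.f (Affine.Point.some _ _ h)) (2 • N'.f (Affine.Point.some _ _ h')) = 0 := by
  obtain ⟨B', hB'⟩ := exists_bil (disc_of N.rt) (disc_of N'.rt)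
  have h1 := rel_all N.rt N'.rt (disc_of N.rt) (disc_of N'.rt) B' hB' h h' hX hX' rfl rfl
  rw [hB', ← QuotientAddGroup.mk_nsmul] at h1
  have h2 := (QuotientAddGroup.eq_zero_iff _).1 h1
  have h3 := N.good.mor.push N'.good.mor h2
  have h4 : Finsupp.mapDomain (Prod.map N.f N'.f)
      (2 • cyc (Affine.Point.some _ _ h : Pt N.a N.b) (Affine.Point.some _ _ h' : Pt N'.a N'.b)) =
      2 • cyc (N.f (Affine.Point.some _ _ h)) (N'.f (Affine.Point.some _ _ h')) := by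
    rw [two_nsmul, two_nsmul, Finsupp.mapDomain_add, map_cyc N.good.zero N'.good.zero]
  rw [h4] at h3
  have h5 := (QuotientAddGroup.eq_zero_iff _).2 h3
  have h6 : 2 • B (N.f (Affine.Point.some _ _ h)) (N'.f (Affine.Point.some _ _ h')) = 0 := by
    rw [hB, ← QuotientAddGroup.mk_nsmul]
    exact h5
  rw [map_nsmul, map_nsmul, AddMonoidHom.nsmul_apply, h6, smul_zero]

/-- orthogonality of the generated subgroups -/
lemma closure_ortho {A B C : Type} [AddCommGroup A] [AddCommGroup B] [AddCommGroup C]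
    (f : A →+ B →+ C) {S : Set A} {T : Set B} (h : ∀ s ∈ S, ∀ t ∈ T, f s t = 0) {x : A} {y : B}
    (hx : x ∈ AddSubgroup.closure S) (hy : y ∈ AddSubgroup.closure T) : f x y = 0 := by
  have h1 : ∀ t ∈ T, f x t = 0 := by
    intro t ht
    have h2 : AddSubgroup.closure S ≤ (f.flip t).ker := by
      rw [AddSubgroup.closure_le]
      intro s hs
      exact h s hs t ht
    exact h2 hx
  have h3 : AddSubgroup.closure T ≤ (f x).ker := by
    rw [AddSubgroup.closure_le]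
    intro t ht
    exact h1 t ht
  exact h3 hy

end ortho

/-- **isotropic grids** -/
theorem grids {I : Type} [Fintype I] {a b : I → AlgebraicClosure ℚ}
    (hD : ∀ i, Disc (a i) (b i)) (r : ℕ) (S : Finset ℕ) :
    ∃ P : (i : I) → Fin r → Pt (a i) (b i),
      (∀ i j, ∀ x ∈ AddSubgroup.closure (Set.range (P i)),
        ∀ y ∈ AddSubgroup.closure (Set.range (P j)),
          cyc x y ∈ RatEquivZero (a i) (b i) (a j) (b j)) ∧
      ∀ i, ∀ m : Fin r → ℤ, m ≠ 0 → ∀ (L : Subfield (AlgebraicClosure ℚ)) [NumberField L],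
        InL L (∑ n, m n • P i n) → ∃ p : ℕ, p.Prime ∧ p ∉ S ∧ (p : ℤ) ∣ NumberField.discr L := by
  obtain ⟨ι⟩ := exists_emb ℂ
  have hN0 := fun i => exists_nodes ι (hD i)
  choose N hN using hN0
  -- the cross ratios
  obtain ⟨K, hK⟩ : ∃ K : Finset (AlgebraicClosure ℚ), K = (Finset.univ : Finset (I × Fin r)).image
      fun q => kap (N q.1 q.2).e₁ (N q.1 q.2).e₂ (N q.1 q.2).e₃ := ⟨_, rfl⟩
  have hKm : ∀ (i : I) (n : Fin r), kap (N i n).e₁ (N i n).e₂ (N i n).e₃ ∈ K := by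
    intro i n
    rw [hK, Finset.mem_image]
    exact ⟨(i, n), Finset.mem_univ _, rfl⟩
  have hKe : ∀ κ ∈ K, ∃ (i : I) (n : Fin r), κ = kap (N i n).e₁ (N i n).e₂ (N i n).e₃ := by
    intro κ hκ
    rw [hK, Finset.mem_image] at hκ
    obtain ⟨q, -, hq⟩ := hκ
    exact ⟨q.1, q.2, hq.symm⟩
  obtain ⟨Z, hZ⟩ : ∃ Z : Finset (AlgebraicClosure ℚ), Z =
      ((Finset.univ : Finset (I × Fin r)).biUnion fun q => dat (N q.1 q.2)) ∪
      (K ×ˢ K).image fun q => q.1 - q.2 := ⟨_, rfl⟩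
  have hZd : ∀ (i : I) (n : Fin r), ∀ z ∈ dat (N i n), z ∈ Z := by
    intro i n z hz
    rw [hZ]
    exact Finset.mem_union_left _
      (Finset.mem_biUnion.2 ⟨(i, n), Finset.mem_univ _, hz⟩)
  have hZk : ∀ κ ∈ K, ∀ κ' ∈ K, κ - κ' ∈ Z := by
    intro κ hκ κ' hκ'
    rw [hZ]
    exact Finset.mem_union_right _ (Finset.mem_image.2 ⟨(κ, κ'), Finset.mem_product.2 ⟨hκ, hκ'⟩, rfl⟩)
  obtain ⟨p₁, hp₁⟩ := exists_good_finset Z
  obtain ⟨p₂, hp₂⟩ := exists_fix_finset Z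
  obtain ⟨p, X, hp, hgX, hX⟩ := exists_param (J := {κ // κ ∈ K}) (fun κ => κ.1)
    (max (max p₁ p₂) (max 3 (S.sup id + 1)))
  -- the data at the primes
  have loc : ∀ κ (hκ : κ ∈ K), ∃ (q : ℕ) (_ : Fact q.Prime) (θ : AlgebraicClosure ℚ →+* PadicAlgCl q)
      (g : AlgebraicClosure ℚ ≃ₐ[ℚ] AlgebraicClosure ℚ) (π : AlgebraicClosure ℚ), 2 < q ∧
      q ∉ S ∧
      Triv θ g ∧ π ^ 2 = (q : AlgebraicClosure ℚ) ∧ g π = -π ∧ (∀ z ∈ Z, g z = z) ∧
      (∀ z ∈ Z, ‖θ z‖ ≤ 1 ∧ (z ≠ 0 → ‖θ z‖ = 1)) ∧ g X = X ∧ ‖θ X‖ = 1 ∧ ‖θ (1 - X)‖ = 1 ∧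
      ‖θ (X - κ)‖ = ((q : ℝ)⁻¹) ^ 3 ∧ ∀ κ' ∈ K, κ' ≠ κ → ‖θ (X - κ')‖ = 1 := by
    intro κ hκ
    have hq := hp ⟨κ, hκ⟩
    obtain ⟨q, hqe⟩ : ∃ q, q = p ⟨κ, hκ⟩ := ⟨_, rfl⟩
    have hfact : Fact (p ⟨κ, hκ⟩).Prime := ⟨hq.1⟩
    obtain ⟨θ⟩ := exists_emb (PadicAlgCl (p ⟨κ, hκ⟩))
    obtain ⟨π, hπ⟩ := IsAlgClosed.exists_pow_nat_eq
      ((p ⟨κ, hκ⟩ : ℕ) : AlgebraicClosure ℚ) (n := 2) (by norm_num)
    obtain ⟨g, hg, gπ⟩ := exists_inertia θ hπ
    have hgd := hp₁ _ ((le_max_left _ _).trans ((le_max_left _ _).trans hq.2)) θ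
    have hfx := hp₂ _ ((le_max_right _ _).trans ((le_max_left _ _).trans hq.2)) θ g hg
    have h3 : 3 ≤ p ⟨κ, hκ⟩ := (le_max_left _ _).trans ((le_max_right _ _).trans hq.2)
    have h3' : S.sup id + 1 ≤ p ⟨κ, hκ⟩ :=
      (le_max_right _ _).trans ((le_max_right _ _).trans hq.2)
    have hqS : p ⟨κ, hκ⟩ ∉ S := by
      intro hmem
      have := Finset.le_sup (f := id) hmem
      simp only [id] at this h3'
      omega
    have hp1 : (1 : ℝ) < p ⟨κ, hκ⟩ := by exact_mod_cast hq.1.one_lt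
    have hkZ : ∀ κ' ∈ K, κ' ∈ Z ∧ κ' ≠ 0 ∧ 1 - κ' ∈ Z ∧ 1 - κ' ≠ 0 := by
      intro κ' hκ'
      obtain ⟨i, n, rfl⟩ := hKe κ' hκ'
      exact ⟨hZd i n _ (by simp [dat]), kap_ne_zero (N i n).rt, hZd i n _ (by simp [dat]),
        kap_ne_one (N i n).rt⟩
    have hn := hX ⟨κ, hκ⟩ θ (fun i => (hgd _ (hkZ i.1 i.2).1).1)
    have hsm : ‖θ (X - κ)‖ < 1 := by
      show ‖θ (X - (⟨κ, hκ⟩ : {κ // κ ∈ K}).1)‖ < 1
      rw [hn]
      exact pow_lt_one₀ (by positivity) (inv_lt_one_of_one_lt₀ hp1) (by norm_num)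
    have hadd : ∀ w : AlgebraicClosure ℚ, ‖θ w‖ = 1 → ‖θ (w + (X - κ))‖ = 1 := by
      intro w hw
      rw [map_add, na_left (by rw [hw]; exact hsm), hw]
    have hsub : ∀ w : AlgebraicClosure ℚ, ‖θ w‖ = 1 → ‖θ (w - (X - κ))‖ = 1 := by
      intro w hw
      rw [sub_eq_add_neg, map_add, na_left (by rw [hw, map_neg, norm_neg]; exact hsm), hw]
    refine ⟨p ⟨κ, hκ⟩, hfact, θ, g, π, by omega, hqS, hg, hπ, gπ, hfx, hgd, ?_, ?_, ?_, hn, ?_⟩
    · exact hgX g fun j => hfx _ (hkZ j.1 j.2).1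
    · have h1 := hadd κ ((hgd _ (hkZ κ hκ).1).2 (hkZ κ hκ).2.1)
      have e : κ + (X - κ) = X := by ring
      rwa [e] at h1
    · have h1 := hsub (1 - κ) ((hgd _ (hkZ κ hκ).2.2.1).2 (hkZ κ hκ).2.2.2)
      have e : 1 - κ - (X - κ) = 1 - X := by ring
      rwa [e] at h1
    · intro κ' hκ' hne
      have h1 := hadd (κ - κ') ((hgd _ (hZk κ hκ κ' hκ')).2 (sub_ne_zero.2 (Ne.symm hne)))
      have e : κ - κ' + (X - κ) = X - κ' := by ring
      rwa [e] at h1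
  have hXk : ∀ κ ∈ K, X ≠ κ := by
    intro κ hκ h0
    obtain ⟨q, hq, θ, -, -, -, -, -, -, -, -, -, -, -, -, hn, -⟩ := loc κ hκ
    rw [h0, sub_self, map_zero, norm_zero] at hn
    have hq0 : (q : ℝ) ≠ 0 := by exact_mod_cast hq.out.ne_zero
    exact pow_ne_zero 3 (inv_ne_zero hq0) hn.symm
  -- the points
  have hpt : ∀ (i : I) (n : Fin r), ∃ y : AlgebraicClosure ℚ,
      (CV (N i n).a (N i n).b).toAffine.Nonsingular
        (xi (N i n).e₁ (N i n).e₂ (N i n).e₃ X) y := by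
    intro i n
    obtain ⟨y, hy⟩ := IsAlgClosed.exists_pow_nat_eq
      ((xi (N i n).e₁ (N i n).e₂ (N i n).e₃ X) ^ 3 +
        (N i n).a * (xi (N i n).e₁ (N i n).e₂ (N i n).e₃ X) + (N i n).b) (n := 2) (by norm_num)
    exact ⟨y, (nonsingular_iff (disc_of (N i n).rt)).2 hy⟩
  choose y hy using hpt
  obtain ⟨R, hR⟩ : ∃ R : (i : I) → Fin r → Pt (a i) (b i),
      ∀ i n, R i n = (N i n).f (Affine.Point.some _ _ (hy i n)) := ⟨_, fun _ _ => rfl⟩
  refine ⟨fun i n => 2 • R i n, ?_, ?_⟩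
  · intro i j x hx y' hy'
    obtain ⟨B, hB⟩ := exists_bil (hD i) (hD j)
    have h1 : B x y' = 0 := by
      refine closure_ortho B ?_ hx hy'
      rintro _ ⟨n, rfl⟩ _ ⟨n', rfl⟩
      simp only [hR]
      exact ortho (hD i) (hD j) B hB (N i n) (N j n') (hXk _ (hKm i n)) (hXk _ (hKm j n'))
        (hy i n) (hy j n')
    rw [hB] at h1
    exact (QuotientAddGroup.eq_zero_iff _).1 h1
  · intro i m hm L _ hL
    obtain ⟨n₀, hn₀⟩ := Function.ne_iff.1 hm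
    obtain ⟨q, hq, θ, g, π, h2q, hqS, hg, hπ, gπ, hfx, hgd, gX, nX, nX1, nk, nk'⟩ := loc _ (hKm i n₀)
    by_contra hcon
    push Not at hcon
    have hgL := fix_of_discr hg L (hcon q hq.out hqS)
    have ga : g (a i) = a i := hfx _ (hZd i n₀ _ (by simp [dat]))
    have gb : g (b i) = b i := hfx _ (hZd i n₀ _ (by simp [dat]))
    have hun : ∀ n, n ≠ n₀ → pmap (g : AlgebraicClosure ℚ →+* AlgebraicClosure ℚ) ga gb (R i n) =
        R i n := by
      intro n hn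
      rw [hR]
      refine act_unr h2q hg (N i n) (fun z hz => hfx _ (hZd i n z hz))
        (fun z hz => hgd _ (hZd i n z hz)) gX nX nX1 (nk' _ (hKm i n) ?_) (hy i n)
      exact hN i n n₀ (fun h => hn (Fin.ext h))
    obtain ⟨hra, hrn⟩ := act_ram h2q hg hπ gπ (N i n₀) (fun z hz => hfx _ (hZd i n₀ z hz))
        (fun z hz => hgd _ (hZd i n₀ z hz)) gX nX nX1 nk (hy i n₀)
    rw [← hR] at hra hrn
    -- the combination is fixed
    have hT : pmap (g : AlgebraicClosure ℚ →+* AlgebraicClosure ℚ) ga gb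
        (∑ n, m n • 2 • R i n) = ∑ n, m n • 2 • R i n := by
      symm
      apply pmap_unique
      cases hc : coords (∑ n, m n • 2 • R i n) with
      | none => rfl
      | some z =>
        obtain ⟨h1, h2⟩ := hL z hc
        simp only [Option.map_some, Option.some.injEq]
        exact Prod.ext (hgL _ h1).symm (hgL _ h2).symm
    rw [map_sum, ← Finset.add_sum_erase _ _ (Finset.mem_univ n₀),
      ← Finset.add_sum_erase _ _ (Finset.mem_univ n₀)] at hT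
    have h1 : ∑ n ∈ Finset.univ.erase n₀, pmap (g : AlgebraicClosure ℚ →+* AlgebraicClosure ℚ) ga gb
        (m n • 2 • R i n) = ∑ n ∈ Finset.univ.erase n₀, m n • 2 • R i n := by
      refine Finset.sum_congr rfl fun n hn => ?_
      rw [map_zsmul, map_nsmul, hun n (Finset.ne_of_mem_erase hn)]
    rw [h1] at hT
    have h2 := add_right_cancel hT
    rw [map_zsmul, map_nsmul] at h2
    have h3 : pmap (g : AlgebraicClosure ℚ →+* AlgebraicClosure ℚ) ga gb (R i n₀) = -R i n₀ := hra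
    rw [h3] at h2
    have h4 : (4 * m n₀) • R i n₀ = 0 := by
      have h5 : m n₀ • 2 • R i n₀ - m n₀ • 2 • (-R i n₀) = (4 * m n₀) • R i n₀ := by
        module
      rw [← h5, h2, sub_self]
    have h6 : (4 * m n₀).natAbs • R i n₀ = 0 := by
      rcases Int.natAbs_eq (4 * m n₀) with h | h
      · rw [← natCast_zsmul, ← h]; exact h4
      · rw [← natCast_zsmul]
        have : ((4 * m n₀).natAbs : ℤ) = -(4 * m n₀) := by omega
        rw [this, neg_smul, h4, neg_zero]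
    refine hrn _ ?_ h6
    have hn₀' : m n₀ ≠ 0 := hn₀
    omega

end Pool.Agent.Run7.h780.GR
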