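import Pool.Agent.Run7.h780.ZC.Curve

/-!
# Morphisms and rational equivalence, and the 2-isogenies
-/

set_option autoImplicit false
set_option linter.all false

namespace Pool.Agent.Run7.h780.GR

open WeierstrassCurve Pool.Agent.H901R3.MS Pool.Agent.Run7.h780.ZC
open scoped Classical

section mor
variable {k : Type} [Field k]

/-- `f` extends to the points over `Ω`, compatibly with the automorphisms over `k(t)` and with the
specialisations -/
def Mor {a b a' b' : k} (f : Pt a b → Pt a' b') : Prop :=
  ∃ F : Pt (io k a) (io k b) → Pt (io k a') (io k b'),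
    (∀ w : ValuationSubring (Om k), (∀ e, io k e ∈ w) → ∀ P p, Specializes w P p →
      Specializes w (F P) (f p)) ∧
    ∀ (σ : Om k ≃ₐ[RatFunc k] Om k) P Q, coords Q = (coords P).map (Prod.map σ σ) →
      coords (F Q) = (coords (F P)).map (Prod.map σ σ)

lemma Mor.id {a b : k} : Mor (fun P : Pt a b => P) :=
  ⟨fun P => P, fun _ _ _ _ h => h, fun _ _ _ h => h⟩

lemma Mor.comp {a b a' b' a'' b'' : k} {f : Pt a b → Pt a' b'} {g : Pt a' b' → Pt a'' b''}
    (hg : Mor g) (hf : Mor f) : Mor (fun P => g (f P)) := by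
  obtain ⟨F, h1, h2⟩ := hf
  obtain ⟨G, h3, h4⟩ := hg
  exact ⟨fun P => G (F P), fun w hw P p h => h3 w hw _ _ (h1 w hw _ _ h),
    fun σ P Q h => h4 σ _ _ (h2 σ _ _ h)⟩

theorem Mor.push {a b a' b' c d c' d' : k} {f : Pt a b → Pt a' b'} {g : Pt c d → Pt c' d'}
    (hf : Mor f) (hg : Mor g) {z : (Pt a b × Pt c d) →₀ ℤ} (hz : z ∈ RatEquivZero a b c d) :
    Finsupp.mapDomain (Prod.map f g) z ∈ RatEquivZero a' b' c' d' := by
  obtain ⟨F, F1, F2⟩ := hf
  obtain ⟨G, G1, G2⟩ := hg
  have key : RatEquivZero a b c d ≤ (RatEquivZero a' b' c' d').comap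
      (Finsupp.mapDomain.addMonoidHom (Prod.map f g)) := by
    unfold RatEquivZero
    rw [AddSubgroup.closure_le]
    rintro z ⟨n, P, w, w', p, p', hst, h1, h2, h3, h4, h5, h6, rfl⟩
    rw [SetLike.mem_coe, AddSubgroup.mem_comap]
    refine AddSubgroup.subset_closure ⟨n, fun i => (F (P i).1, G (P i).2), w, w',
      fun i => (f (p i).1, g (p i).2), fun i => (f (p' i).1, g (p' i).2), ?_, h1, h2, h3, h4, ?_,
      ?_, ?_⟩
    · intro σ
      obtain ⟨π, hπ⟩ := hst σ
      exact ⟨π, fun i => ⟨F2 σ _ _ (hπ i).1, G2 σ _ _ (hπ i).2⟩⟩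
    · exact fun i => ⟨F1 w h1 _ _ (h5 i).1, G1 w h1 _ _ (h5 i).2⟩
    · exact fun i => ⟨F1 w' h3 _ _ (h6 i).1, G1 w' h3 _ _ (h6 i).2⟩
    · rw [map_sum]
      refine Finset.sum_congr rfl fun i _ => ?_
      rw [map_sub]
      simp only [Finsupp.mapDomain.addMonoidHom_apply, Finsupp.mapDomain_single, Prod.map]
  exact key hz

lemma map_cyc {a b a' b' c d c' d' : k} {f : Pt a b → Pt a' b'} {g : Pt c d → Pt c' d'}
    (hf : f 0 = 0) (hg : g 0 = 0) (P : Pt a b) (Q : Pt c d) :
    Finsupp.mapDomain (Prod.map f g) (cyc P Q) = cyc (f P) (g Q) := by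
  unfold cyc
  simp only [sub_eq_add_neg, Finsupp.mapDomain_add, ← Finsupp.single_neg,
    Finsupp.mapDomain_single, Prod.map, hf, hg]

/-- congruence modulo the maximal ideal -/
def Near (w : ValuationSubring (Om k)) (x : Om k) (c : k) : Prop := w.valuation (x - io k c) < 1

variable {w : ValuationSubring (Om k)}

lemma Near.mem (hw : ∀ e, io k e ∈ w) {x : Om k} {c : k} (h : Near w x c) : x ∈ w := by
  have h1 : x - io k c ∈ w := (w.valuation_le_one_iff _).1 h.le
  have h2 := w.add_mem _ _ h1 (hw c)
  rwa [sub_add_cancel] at h2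

lemma near_io (c : k) : Near w (io k c) c := by
  unfold Near
  rw [sub_self, map_zero]
  exact zero_lt_one

lemma Near.add {x y : Om k} {c d : k} (h : Near w x c) (h' : Near w y d) :
    Near w (x + y) (c + d) := by
  unfold Near at *
  rw [map_add, add_sub_add_comm]
  exact Valuation.map_add_lt _ h h'

lemma lt_mul {x y : Om k} (hx : w.valuation x ≤ 1) (hy : w.valuation y < 1) :
    w.valuation (x * y) < 1 := by
  rw [map_mul]
  calc w.valuation x * w.valuation y ≤ 1 * w.valuation y := mul_le_mul_left hx _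
    _ = w.valuation y := one_mul _
    _ < 1 := hy

lemma Near.mul (hw : ∀ e, io k e ∈ w) {x y : Om k} {c d : k} (h : Near w x c) (h' : Near w y d) :
    Near w (x * y) (c * d) := by
  have hx := (w.valuation_le_one_iff _).2 (h.mem hw)
  have hd := (w.valuation_le_one_iff _).2 (hw d)
  unfold Near at *
  have e : x * y - io k (c * d) = x * (y - io k d) + io k d * (x - io k c) := by
    rw [map_mul]; ring
  rw [e]
  exact Valuation.map_add_lt _ (lt_mul hx h') (lt_mul hd h)

lemma val_io (hw : ∀ e, io k e ∈ w) {c : k} (hc : c ≠ 0) : w.valuation (io k c) = 1 := by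
  apply le_antisymm ((w.valuation_le_one_iff _).2 (hw c))
  have h1 := (w.valuation_le_one_iff _).2 (hw c⁻¹)
  have h2 : io k c ≠ 0 := (map_ne_zero _).2 hc
  have h3 : w.valuation (io k c) ≠ 0 := (map_ne_zero _).2 h2
  rw [map_inv₀, map_inv₀] at h1
  rwa [inv_le_one₀ (zero_lt_iff.2 h3)] at h1

lemma Near.val (hw : ∀ e, io k e ∈ w) {x : Om k} {c : k} (hc : c ≠ 0) (h : Near w x c) :
    w.valuation x = 1 := by
  have h1 := val_io hw hc
  unfold Near at h
  have e : x = io k c + (x - io k c) := by ring
  rw [e, Valuation.map_add_eq_of_lt_left]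
  · exact h1
  · rw [h1]; exact h

lemma Near.inv (hw : ∀ e, io k e ∈ w) {x : Om k} {c : k} (hc : c ≠ 0) (h : Near w x c) :
    Near w x⁻¹ c⁻¹ := by
  have h1 := h.val hw hc
  have h2 := val_io hw hc
  have hx : x ≠ 0 := by
    rintro rfl
    rw [map_zero] at h1
    exact zero_ne_one h1
  have hc' : io k c ≠ 0 := (map_ne_zero _).2 hc
  unfold Near at *
  have e : x⁻¹ - io k c⁻¹ = -(x - io k c) / (x * io k c) := by
    rw [map_inv₀]
    field_simp
    ring
  rw [e, map_div₀, map_mul, h1, h2, mul_one, div_one, Valuation.map_neg]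
  exact h

end mor

section iso
variable {F : Type} [Field F]

/-- the isogeny of degree two to `y² = x³ + a x + b` which is dual to the quotient by the point `(e, 0)` -/
structure Iso2 (A B a b e : F) : Prop where
  hA : A = -4 * a - 15 * e ^ 2
  hB : B = -2 * e * (11 * e ^ 2 + 4 * a)
  he : e ^ 3 + a * e + b = 0

lemma Iso2.eqn {A B a b e : F} (h : Iso2 A B a b e) (h2 : (2 : F) ≠ 0) {x y : F}
    (hx : x + 2 * e ≠ 0) (hE : Eqn A B x y) :
    Eqn a b ((x - (4 * a + 3 * e ^ 2) / (x + 2 * e)) / 4)
      (y * (1 + (4 * a + 3 * e ^ 2) / (x + 2 * e) ^ 2) / 8) := by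
  have h4 : (4 : F) ≠ 0 := by
    have : (4 : F) = 2 * 2 := by norm_num
    rw [this]; exact mul_ne_zero h2 h2
  have h8 : (8 : F) ≠ 0 := by
    have : (8 : F) = 2 * 4 := by norm_num
    rw [this]; exact mul_ne_zero h2 h4
  obtain ⟨u, hu⟩ : ∃ u, u = x + 2 * e := ⟨_, rfl⟩
  obtain ⟨t, ht⟩ : ∃ t, t = 4 * a + 3 * e ^ 2 := ⟨_, rfl⟩
  have hu0 : u ≠ 0 := hu ▸ hx
  have hxu : x = u - 2 * e := by rw [hu]; ring
  have hb : b = -e ^ 3 - a * e := by linear_combination h.he
  have hy : y ^ 2 = u * (u ^ 2 - 6 * e * u - t) := by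
    unfold Eqn at hE
    rw [hE, h.hA, h.hB, hxu, ht]
    ring
  unfold Eqn
  rw [← ht, ← hu, hxu, hb]
  have h64 : (64 : F) ≠ 0 := by
    have : (64 : F) = 8 * 8 := by norm_num
    rw [this]; exact mul_ne_zero h8 h8
  have e1 : (y * (1 + t / u ^ 2) / 8) ^ 2 = y ^ 2 * (u ^ 2 + t) ^ 2 / (64 * u ^ 4) := by
    field_simp
    ring
  rw [e1, hy]
  field_simp
  rw [ht]
  ring

/-- the isogeny of degree two -/
noncomputable def psi {A B a b e : F} (h : Iso2 A B a b e) (hD : Disc a b) : Pt A B → Pt a b
  | Affine.Point.zero => 0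
  | Affine.Point.some x y hxy =>
    if hx : x + 2 * e = 0 then 0 else
      Affine.Point.some ((x - (4 * a + 3 * e ^ 2) / (x + 2 * e)) / 4)
        (y * (1 + (4 * a + 3 * e ^ 2) / (x + 2 * e) ^ 2) / 8)
        ((nonsingular_iff hD).2 (h.eqn (fun h2 => hD (by rw [h2, zero_mul])) hx (eqn_of hxy)))

lemma psi_zero {A B a b e : F} (h : Iso2 A B a b e) (hD : Disc a b) : psi h hD 0 = 0 := rfl

lemma psi_pos {A B a b e : F} (h : Iso2 A B a b e) (hD : Disc a b) {x y : F}
    (hxy : (CV A B).toAffine.Nonsingular x y) (hx : x + 2 * e = 0) :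
    psi h hD (Affine.Point.some x y hxy) = 0 := by
  show (if hx : x + 2 * e = 0 then (0 : Pt a b) else _) = 0
  rw [dif_pos hx]

lemma psi_neg {A B a b e : F} (h : Iso2 A B a b e) (hD : Disc a b) {x y : F}
    (hxy : (CV A B).toAffine.Nonsingular x y) (hx : ¬ x + 2 * e = 0) :
    psi h hD (Affine.Point.some x y hxy) =
      Affine.Point.some ((x - (4 * a + 3 * e ^ 2) / (x + 2 * e)) / 4)
        (y * (1 + (4 * a + 3 * e ^ 2) / (x + 2 * e) ^ 2) / 8)
        ((nonsingular_iff hD).2 (h.eqn (fun h2 => hD (by rw [h2, zero_mul])) hx (eqn_of hxy))) := by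
  show (if hx : x + 2 * e = 0 then (0 : Pt a b) else _) = _
  rw [dif_neg hx]

lemma coords_psi {A B a b e : F} (h : Iso2 A B a b e) (hD : Disc a b) {x y : F}
    (hxy : (CV A B).toAffine.Nonsingular x y) : coords (psi h hD (Affine.Point.some x y hxy)) =
      if x + 2 * e = 0 then none else some ((x - (4 * a + 3 * e ^ 2) / (x + 2 * e)) / 4,
        y * (1 + (4 * a + 3 * e ^ 2) / (x + 2 * e) ^ 2) / 8) := by
  split_ifs with hx
  · rw [psi_pos h hD hxy hx]
    rfl
  · rw [psi_neg h hD hxy hx]
    rfl

end iso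

section
variable {k : Type} [Field k]

lemma iso_io {A B a b e : k} (h : Iso2 A B a b e) :
    Iso2 (io k A) (io k B) (io k a) (io k b) (io k e) := by
  refine ⟨?_, ?_, ?_⟩
  · have := congrArg (io k) h.hA
    simpa only [map_sub, map_mul, map_neg, map_pow, map_ofNat] using this
  · have := congrArg (io k) h.hB
    simpa only [map_add, map_mul, map_neg, map_pow, map_ofNat] using this
  · have := congrArg (io k) h.he
    simpa only [map_add, map_mul, map_neg, map_pow, map_ofNat, map_zero] using this

variable [IsAlgClosed k] [CharZero k]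

theorem psi_mor {A B a b e : k} (h : Iso2 A B a b e) (hD : Disc a b) (ht : 4 * a + 3 * e ^ 2 ≠ 0) :
    Mor (psi h hD) := by
  have h4 : (4 : k) ≠ 0 := by norm_num
  refine ⟨psi (iso_io h) (disc_io hD), ?_, ?_⟩
  · intro w hw P p hPp
    have n2 : Near w (2 : Om k) (2 : k) := by
      have := near_io (w := w) (2 : k)
      rwa [map_ofNat] at this
    have n3 : Near w (3 : Om k) (3 : k) := by
      have := near_io (w := w) (3 : k)
      rwa [map_ofNat] at this
    have n4 : Near w (4 : Om k) (4 : k) := by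
      have := near_io (w := w) (4 : k)
      rwa [map_ofNat] at this
    have n8 : Near w (8 : Om k) (8 : k) := by
      have := near_io (w := w) (8 : k)
      rwa [map_ofNat] at this
    have n1 : Near w (1 : Om k) (1 : k) := by
      have := near_io (w := w) (1 : k)
      rwa [map_one] at this
    have nm1 : Near w (-1 : Om k) (-1 : k) := by
      have := near_io (w := w) (-1 : k)
      rwa [map_neg, map_one] at this
    have m2 : (2 : Om k) ∈ w := n2.mem hw
    have m4 : (4 : Om k) ∈ w := n4.mem hw
    have m4i : (4 : Om k)⁻¹ ∈ w := (n4.inv hw h4).mem hw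
    have nt : Near w (4 * io k a + 3 * io k e ^ 2) (4 * a + 3 * e ^ 2) := by
      rw [pow_two, pow_two]
      exact (n4.mul hw (near_io a)).add (n3.mul hw ((near_io e).mul hw (near_io e)))
    rcases P with _ | ⟨x, y, hxy⟩ <;> rcases p with _ | ⟨x', y', hxy'⟩
    · exact trivial
    · exact absurd hPp (by change ¬ False; exact id)
    · -- the point goes to the origin
      have hx : x ∉ w := hPp
      have hxe : x + 2 * io k e ∉ w := by
        intro hm
        apply hx
        have := sub_mem hm (w.mul_mem _ _ m2 (hw e))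
        rwa [add_sub_cancel_right] at this
      have hxe0 : x + 2 * io k e ≠ 0 := by
        intro h0
        rw [h0] at hxe
        exact hxe w.zero_mem
      have hinv : (x + 2 * io k e)⁻¹ ∈ w := by
        rcases w.mem_or_inv_mem (x + 2 * io k e) with h1 | h1
        · exact absurd h1 hxe
        · exact h1
      have hq : (4 * io k a + 3 * io k e ^ 2) / (x + 2 * io k e) ∈ w := by
        rw [div_eq_mul_inv]
        exact w.mul_mem _ _ (nt.mem hw) hinv
      have hX : (x - (4 * io k a + 3 * io k e ^ 2) / (x + 2 * io k e)) / 4 ∉ w := by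
        intro hm
        apply hx
        have h1 := w.add_mem _ _ (w.mul_mem _ _ hm m4) hq
        have h40 : (4 : Om k) ≠ 0 := by norm_num
        rwa [div_mul_cancel₀ _ h40, sub_add_cancel] at h1
      change Specializes w (psi (iso_io h) (disc_io hD) (Affine.Point.some x y hxy)) 0
      rw [psi_neg (iso_io h) (disc_io hD) hxy hxe0]
      exact hX
    · have hx1 : Near w x x' := hPp.1
      have hy1 : Near w y y' := hPp.2
      have ne : Near w (x + 2 * io k e) (x' + 2 * e) := hx1.add (n2.mul hw (near_io e))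
      have hxw : x ∈ w := hx1.mem hw
      by_cases hx' : x' + 2 * e = 0
      · rw [psi_pos h hD hxy' hx']
        by_cases hx0 : x + 2 * io k e = 0
        · rw [psi_pos (iso_io h) (disc_io hD) hxy hx0]
          exact trivial
        · rw [psi_neg (iso_io h) (disc_io hD) hxy hx0]
          show _ ∉ w
          intro hm
          have h40 : (4 : Om k) ≠ 0 := by norm_num
          have h1 := sub_mem hxw (w.mul_mem _ _ hm m4)
          rw [div_mul_cancel₀ _ h40, sub_sub_cancel] at h1
          have h2 := (w.valuation_le_one_iff _).2 h1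
          rw [map_div₀, nt.val hw ht] at h2
          unfold Near at ne
          rw [hx', map_zero, sub_zero] at ne
          have h3 : w.valuation (x + 2 * io k e) ≠ 0 := (map_ne_zero _).2 hx0
          have h5 : (1 : w.ValueGroup) < 1 / w.valuation (x + 2 * io k e) := by
            rw [one_div]
            exact (one_lt_inv₀ (zero_lt_iff.2 h3)).2 ne
          exact absurd h2 (not_le.2 h5)
      · have hv := ne.val hw hx'
        have hx0 : x + 2 * io k e ≠ 0 := by
          intro h0
          rw [h0, map_zero] at hv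
          exact zero_ne_one hv
        rw [psi_neg h hD hxy' hx', psi_neg (iso_io h) (disc_io hD) hxy hx0]
        have ni := ne.inv hw hx'
        have nq := nt.mul hw ni
        constructor
        · show Near w _ _
          have := (hx1.add (nm1.mul hw nq)).mul hw (n4.inv hw h4)
          convert this using 1 <;> ring
        · show Near w _ _
          have h8 : (8 : k) ≠ 0 := by norm_num
          have := (hy1.mul hw (n1.add (nt.mul hw (ni.mul hw ni)))).mul hw (n8.inv hw h8)
          convert this using 1 <;>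
            (dsimp only; simp only [div_eq_mul_inv, ← inv_pow]; ring)
  · intro σ P Q hQ
    rcases P with _ | ⟨x, y, hxy⟩
    · rcases Q with _ | ⟨x', y', hxy'⟩
      · rfl
      · simp [coords] at hQ
    · rcases Q with _ | ⟨x', y', hxy'⟩
      · simp [coords] at hQ
      · simp only [coords, Option.map_some, Option.some.injEq, Prod.map, Prod.mk.injEq] at hQ
        obtain ⟨rfl, rfl⟩ := hQ
        have ea : σ (io k a) = io k a := sigma_io σ a
        have ee : σ (io k e) = io k e := sigma_io σ e
        rw [coords_psi, coords_psi]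
        have hiff : σ x + 2 * io k e = 0 ↔ x + 2 * io k e = 0 := by
          have : σ x + 2 * io k e = σ (x + 2 * io k e) := by
            rw [map_add, map_mul, map_ofNat, ee]
          rw [this]
          exact map_eq_zero_iff σ σ.injective
        by_cases hx : x + 2 * io k e = 0
        · rw [if_pos hx, if_pos (hiff.2 hx)]
          rfl
        · rw [if_neg hx, if_neg (fun h => hx (hiff.1 h))]
          simp only [Option.map_some, Option.some.injEq, Prod.map, Prod.mk.injEq]
          constructor
          · simp only [map_div₀, map_sub, map_add, map_mul, map_pow, map_ofNat, ea, ee]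
          · simp only [map_div₀, map_add, map_mul, map_pow, map_ofNat, map_one, ea, ee]

end

end Pool.Agent.Run7.h780.GR
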